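import Pool.Agent.H42.RAT2.Path
import Pool.Agent.H42.RAT2.Gen

/-!
# RATS (MP_a315fd): an explicit path from `1^x 2^y` to the cycle `117, 288`
-/

set_option autoImplicit false

namespace Pool.RATC

open List Pool.RAT

/-- the sequence of `n` reaches `117` (and so the cycle `117, 288`) -/
def Cyc (n : ℕ) : Prop := ∃ k : ℕ, rats^[k] n = 117

theorem cyc_rats {x : ℕ} (h : Cyc (rats x)) : Cyc x := by
  obtain ⟨k, hk⟩ := h
  exact ⟨k + 1, by rw [Function.iterate_succ_apply]; exact hk⟩

theorem cyc_iter {x : ℕ} (j : ℕ) (h : Cyc (rats^[j] x)) : Cyc x := by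
  obtain ⟨k, hk⟩ := h
  exact ⟨k + j, by rw [Function.iterate_add_apply]; exact hk⟩

/-- a general step -/
theorem step_gen {l D m : List ℕ} (hl : St l) (hD : ∀ d ∈ D, d < 10)
    (he : Nat.ofDigits 10 (cs l) = Nat.ofDigits 10 D) (hm : St m)
    (hc : ∀ x, 0 < x → D.count x = m.count x) :
    rats (Nat.ofDigits 10 l) = Nat.ofDigits 10 m := by
  rw [rats_st hl, he, nz_digits hD, nz_eq' hc hm]

/-- a chain of carries that stops at the last column -/
theorem carry_end {t : List ℕ} (h : ∀ d ∈ t, 9 ≤ d) (x : ℕ) :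
    Nat.ofDigits 10 (t ++ [x]) + 1 = Nat.ofDigits 10 (t.map (fun d => d - 9) ++ [x + 1]) := by
  have h1 := ofDigits_carry h
  rw [Nat.ofDigits_append] at h1 ⊢
  rw [Nat.ofDigits_append, length_map] at *
  simp only [Nat.ofDigits_singleton] at *
  have : 10 ^ t.length * (x + 1) = 10 ^ t.length * x + 10 ^ t.length * 1 := by ring
  omega

/-- `1^a 2^(a+k) ↦ 3^(2a) 4^k` and `3^a 4^(a+k) ↦ 7^(2a) 8^k` -/
theorem tw_N' {p q : ℕ} (h1 : 1 ≤ q) (h2 : q < p) (h9 : p + p ≤ 9) (a k : ℕ) :
    rats (Nat.ofDigits 10 (tw p q (a + k) a)) =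
      Nat.ofDigits 10 (tw (p + p) (p + q) k (2 * a)) := by
  apply rats_N (st_tw h1 h2 (by omega) _ _) (st_tw (by omega) (by omega) h9 _ _)
  have e : tw p q (a + k) a = replicate a p ++ (replicate k p ++ replicate a q) := by
    rw [tw, replicate_add, append_assoc]
  rw [e, cs_wrap, cs_rep, perm_iff_count]
  intro x
  simp only [tw, count_append, count_replicate, beq_iff_eq]
  split_ifs <;> omega

/-- `7^k 6^a 5 1` -/
def l7651 (k a : ℕ) : List ℕ := replicate k 7 ++ (replicate a 6 ++ (replicate 1 5 ++ replicate 1 1))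

theorem st_l7651 (k a : ℕ) : St (l7651 k a) := by
  constructor
  · simp only [l7651, pairwise_append, pairwise_replicate, mem_append, mem_replicate]
    refine ⟨Or.inr (le_refl _), ⟨Or.inr (le_refl _), ⟨Or.inr (le_refl _), Or.inr (le_refl _), ?_⟩, ?_⟩, ?_⟩
    all_goals
      intro x hx y hy
      omega
  · intro d hd
    simp only [l7651, mem_append, mem_replicate] at hd
    omega

/-- `7^(a+1) 8^(a+1+k) ↦ 1 5 6^(2a+1) 7^k` -/
theorem stepC3 (a k : ℕ) :
    rats (Nat.ofDigits 10 (tw 8 7 (a + 1 + k) (a + 1))) = Nat.ofDigits 10 (l7651 k (2 * a + 1)) := by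
  have h : cs (tw 8 7 (a + 1 + k) (a + 1)) =
      15 :: (replicate a 15 ++ (replicate k 16 ++ replicate (a + 1) 15)) := by
    have e : tw 8 7 (a + 1 + k) (a + 1) =
        replicate (a + 1) 8 ++ (replicate k 8 ++ replicate (a + 1) 7) := by
      rw [tw, replicate_add, append_assoc]
    rw [e, cs_wrap, cs_rep]
    simp only [replicate_succ, cons_append]
  rw [rats_F (st_tw (by norm_num) (by norm_num) (by norm_num) _ _) h (by norm_num)]
  · congr 1
    apply nz_eq' _ (st_l7651 _ _)
    intro x hx
    simp only [l7651, map_append, map_replicate, count_append, count_cons, count_replicate,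
      beq_iff_eq, count_nil]
    norm_num
    split_ifs <;> omega
  · intro d hd
    simp only [mem_append, mem_replicate] at hd
    omega

/-- `9 8 5^b 4^a 3 2` -/
def l985432 (b a : ℕ) : List ℕ := replicate 1 9 ++ (replicate 1 8 ++ ((replicate b 5 ++
  (replicate a 4)) ++ replicate 1 3)) ++ replicate 1 2

theorem l985432_eq (b a : ℕ) : l985432 b a = replicate 1 9 ++ ((replicate 1 8 ++ ((replicate b 5 ++
    replicate a 4) ++ replicate 1 3)) ++ replicate 1 2) := by
  simp only [l985432, append_assoc]

theorem st_l985432 (b a : ℕ) : St (l985432 b a) := by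
  rw [l985432_eq]
  constructor
  · simp only [pairwise_append, pairwise_replicate, mem_append, mem_replicate]
    refine ⟨Or.inr (le_refl _), ⟨⟨Or.inr (le_refl _), ⟨⟨Or.inr (le_refl _), Or.inr (le_refl _), ?_⟩,
      Or.inr (le_refl _), ?_⟩, ?_⟩, Or.inr (le_refl _), ?_⟩, ?_⟩
    all_goals
      intro x hx y hy
      omega
  · intro d hd
    simp only [mem_append, mem_replicate] at hd
    omega

/-- `1 5 6^a 7^(a+2+b) ↦ 2 3 4^(2a) 5^b 8 9` -/
theorem stepC4 (a b : ℕ) :
    rats (Nat.ofDigits 10 (l7651 (a + 2 + b) a)) = Nat.ofDigits 10 (l985432 b (2 * a)) := by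
  have h : cs (l7651 (a + 2 + b) a) = 8 :: (12 :: ((replicate a 13 ++ (replicate b 14 ++
      (replicate a 13 ++ replicate 1 12))) ++ [8])) := by
    have e : l7651 (a + 2 + b) a =
        replicate 1 7 ++ ((replicate 1 7 ++ ((replicate a 7 ++ (replicate b 7 ++ replicate a 6)) ++
          replicate 1 5)) ++ replicate 1 1) := by
      rw [l7651, show a + 2 + b = 1 + (1 + (a + b)) by ring, replicate_add 1, replicate_add 1,
        replicate_add a]
      simp only [append_assoc]
    rw [e, cs_wrap, cs_wrap, cs_wrap, cs_rep]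
    simp only [replicate_succ, replicate_zero, cons_append, append_assoc, nil_append]
  apply step_gen (st_l7651 _ _) (D := 8 :: (2 :: ((replicate a 13 ++ (replicate b 14 ++
      (replicate a 13 ++ replicate 1 12))).map (fun d => d - 9) ++ [8 + 1])))
  · intro d hd
    simp only [map_append, map_replicate, mem_cons, mem_append, mem_replicate, not_mem_nil,
      or_false] at hd
    omega
  · rw [h]
    have h9 : ∀ d ∈ replicate a 13 ++ (replicate b 14 ++ (replicate a 13 ++ replicate 1 12)),
        9 ≤ d := by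
      intro d hd
      simp only [mem_append, mem_replicate] at hd
      omega
    have := carry_end h9 8
    rw [Nat.ofDigits_cons, Nat.ofDigits_cons, Nat.ofDigits_cons, Nat.ofDigits_cons, ← this]
    omega
  · exact st_l985432 _ _
  · intro x hx
    rw [l985432_eq]
    simp only [map_append, map_replicate, count_append, count_cons, count_replicate,
      beq_iff_eq, count_nil]
    norm_num
    split_ifs <;> omega

/-- `2 3 4^a 5^(a+t) 8 9 ↦ 1^(t+2) 2^3` -/
theorem stepC5 (a t : ℕ) :
    rats (Nat.ofDigits 10 (l985432 (a + t) a)) = Nat.ofDigits 10 (tw 2 1 3 (t + 2)) := by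
  have h : cs (l985432 (a + t) a) = 11 :: (11 :: (replicate a 9 ++ (replicate t 10 ++
      (replicate a 9 ++ [11, 11])))) := by
    rw [l985432_eq, replicate_add a t, append_assoc (replicate a 5), cs_wrap, cs_wrap, cs_wrap,
      cs_rep]
    simp only [replicate_succ, replicate_zero, cons_append, append_assoc, nil_append]
  rw [rats_F (st_l985432 _ _) h (by norm_num)]
  · congr 1
    apply nz_eq' _ (st_tw (by norm_num) (by norm_num) (by norm_num) _ _)
    intro x hx
    simp only [tw, map_append, map_replicate, map_cons, map_nil, count_append, count_cons,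
      count_replicate, beq_iff_eq, count_nil]
    norm_num
    split_ifs <;> omega
  · intro d hd
    simp only [mem_cons, mem_append, mem_replicate, not_mem_nil, or_false] at hd
    omega

/-- five steps: `1^x 2^(31x) ↦ 111222` -/
theorem five (x : ℕ) (hx : 1 ≤ x) :
    rats (rats (rats (rats (rats (Nat.ofDigits 10 (tw 2 1 (31 * x) x)))))) =
      Nat.ofDigits 10 (tw 2 1 3 3) := by
  obtain ⟨z, rfl⟩ := Nat.exists_eq_add_of_le' hx
  rw [show 31 * (z + 1) = (z + 1) + 30 * (z + 1) by ring,
    tw_N' (by norm_num) (by norm_num) (by norm_num),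
    show 30 * (z + 1) = 2 * (z + 1) + 28 * (z + 1) by ring,
    tw_N' (by norm_num) (by norm_num) (by norm_num)]
  norm_num only
  rw [show 28 * (z + 1) = (4 * z + 3) + 1 + 24 * (z + 1) by ring,
    show 2 * (2 * (z + 1)) = (4 * z + 3) + 1 by ring, stepC3,
    show 24 * (z + 1) = (2 * (4 * z + 3) + 1) + 2 + (16 * z + 15) by ring, stepC4,
    show 16 * z + 15 = 2 * (2 * (4 * z + 3) + 1) + 1 by ring, stepC5]

instance (l : List ℕ) : Decidable (St l) := by
  unfold St
  infer_instance

end Pool.RATC
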