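import Pool.Agent.H19.RATC.Start

/-!
# RATS (MP_a315fd): a family of two parameters that cycles
-/

set_option autoImplicit false

namespace Pool.RATC

open List Pool.RAT

theorem famC (m : ℕ) : ∀ x y, 54 ≤ y → 32 * (64 ^ m * y) = 31 * (x + y + m) + 320 * gm m →
    Cyc (Nat.ofDigits 10 (tw 2 1 y x)) := by
  induction m with
  | zero =>
    intro x y hy h
    simp only [gm, pow_zero] at h
    have : y = 31 * x := by omega
    subst this
    apply cyc_iter 5
    show Cyc (rats (rats (rats (rats (rats _)))))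
    rw [five x (by omega)]
    exact cyc_start
  | succ m ih =>
    intro x y hy h
    have h1 := gm_eq (m + 1)
    have h2 := gm_succ m
    have h3 : 64 ≤ 64 ^ (m + 1) := by
      calc 64 = 64 ^ 1 := by norm_num
        _ ≤ 64 ^ (m + 1) := Nat.pow_le_pow_right (by norm_num) (by omega)
    have h4 : m + 1 < 64 ^ (m + 1) := Nat.lt_pow_self (by norm_num)
    obtain ⟨k, hk⟩ : ∃ k, x + 9 = 63 * y + k := by
      refine ⟨x + 9 - 63 * y, ?_⟩
      have h5 : 64 * y ≤ 64 ^ (m + 1) * y := Nat.mul_le_mul_right y h3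
      have h6 : 64 ^ (m + 1) * 54 ≤ 64 ^ (m + 1) * y := Nat.mul_le_mul_left _ hy
      have : 63 * y ≤ x + 9 := by omega
      omega
    have hx : x = 63 * y + k - 9 := by omega
    rw [hx]
    apply cyc_iter 6
    show Cyc (rats (rats (rats (rats (rats (rats _))))))
    rw [six y k (by omega) (by omega)]
    apply ih
    · omega
    · have e1 : 32 * (64 ^ m * (64 * y - 10)) + 320 * 64 ^ m = 32 * (64 ^ (m + 1) * y) := by
        obtain ⟨w, hw⟩ : ∃ w, 64 * y = w + 10 := ⟨64 * y - 10, by omega⟩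
        rw [hw, Nat.add_sub_cancel, pow_succ]
        calc 32 * (64 ^ m * w) + 320 * 64 ^ m = 32 * (64 ^ m * (w + 10)) := by ring
          _ = 32 * (64 ^ m * (64 * y)) := by rw [hw]
          _ = 32 * (64 ^ m * 64 * y) := by ring
      omega

theorem cyc_TG {q0 q1 q2 q3 p1 p2 p3 p4 r m : ℕ} (hq : 1 ≤ q0)
    (hY : 54 ≤ 2 * (p1 + p2 + p3 + p4))
    (h : 32 * (64 ^ m * (2 * (p1 + p2 + p3 + p4))) =
      31 * ((2 * (q0 + q1 + q2 + q3) + r) + 2 * (p1 + p2 + p3 + p4) + m) + 320 * gm m) :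
    Cyc (Nat.ofDigits 10 (TG q0 q1 q2 q3 p1 p2 p3 p4 r)) := by
  obtain ⟨q, rfl⟩ : ∃ q, q0 = q + 1 := ⟨q0 - 1, by omega⟩
  apply cyc_rats
  rw [stepG]
  exact famC m _ _ hY h

end Pool.RATC
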