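import Pool.Agent.H19.RATC.Uni2

/-!
# RATS (MP_a315fd): the uniform lower bound, and a positive proportion
-/

set_option autoImplicit false

namespace Pool.RATC

open List Pool.RAT

theorem mJ_par (J t : ℕ) : mJ J t = mJ J (t % 2) := by
  have : (t + 1) % 2 = (t % 2 + 1) % 2 := by omega
  rw [mJ, mJ, this]

theorem densityU : ∃ c : ℝ, 0 < c ∧ ∃ N0 : ℕ, ∀ N : ℕ, N0 ≤ N → ∃ K : ℕ → ℕ,
    ∀ t : ℕ, (t : ℝ) ≤ c * Real.log N →
      c * N / Real.log N ≤ ((US (K (t % 2)) t N).ncard : ℝ) := by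
  obtain ⟨C, hC, J0, h0⟩ := final_countU
  obtain ⟨c, hc⟩ : ∃ c : ℝ, c = min (1 / (10 ^ 20 * C)) (1 / 10 ^ 6) := ⟨_, rfl⟩
  have hc0 : 0 < c := by rw [hc]; exact lt_min (by positivity) (by positivity)
  have hc1 : c ≤ 1 / (10 ^ 20 * C) := by rw [hc]; exact min_le_left _ _
  have hc2 : c ≤ 1 / 10 ^ 6 := by rw [hc]; exact min_le_right _ _
  refine ⟨c, hc0, 10 ^ (12 * (J0 + 100) + 20), fun N hN => ?_⟩
  have hN0 : N ≠ 0 := by
    have : 1 ≤ 10 ^ (12 * (J0 + 100) + 20) := Nat.one_le_pow _ _ (by norm_num)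
    omega
  obtain ⟨L, hL⟩ : ∃ L, L = Nat.log 10 N := ⟨_, rfl⟩
  have hL1 : 10 ^ L ≤ N := by rw [hL]; exact Nat.pow_log_le_self 10 hN0
  have hL2 : N < 10 ^ (L + 1) := by rw [hL]; exact Nat.lt_pow_succ_log_self (by norm_num) N
  have hL3 : 12 * (J0 + 100) + 20 ≤ L := by
    have h := lt_of_le_of_lt hN hL2
    have := (Nat.pow_lt_pow_iff_right (a := 10) (by norm_num)).mp h
    omega
  obtain ⟨J, hJ⟩ : ∃ J, J = (L - 8) / 12 := ⟨_, rfl⟩
  have hJ1 : J0 + 100 ≤ J := by omega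
  have hJ2 : 12 * J + 8 ≤ L := by omega
  have hJ3 : L + 1 ≤ 12 * J + 20 := by omega
  have hN1 : (1 : ℝ) < N := by
    have : 10 ≤ N := le_trans (by
      calc 10 = 10 ^ 1 := by norm_num
        _ ≤ 10 ^ (12 * (J0 + 100) + 20) := Nat.pow_le_pow_right (by norm_num) (by omega)) hN
    have h' : (10 : ℝ) ≤ N := by exact_mod_cast this
    linarith
  have hlog : 0 < Real.log N := Real.log_pos hN1
  have hlogL : Real.log N ≤ 9 * (L + 1) := by
    have h3 : (N : ℝ) ≤ 10 ^ (L + 1) := by exact_mod_cast hL2.le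
    have h4 := Real.log_le_log (by linarith) h3
    rw [Real.log_pow] at h4
    have h5 : Real.log 10 ≤ 9 := by
      have := Real.log_le_sub_one_of_pos (x := 10) (by norm_num)
      linarith
    have h6 : ((L + 1 : ℕ) : ℝ) * Real.log 10 ≤ ((L + 1 : ℕ) : ℝ) * 9 :=
      mul_le_mul_of_nonneg_left h5 (Nat.cast_nonneg _)
    push_cast at h4 h6
    linarith
  refine ⟨fun e => 6 * mJ J e + 7, fun t ht => ?_⟩
  have ht0 : 1000 * t ≤ J := by
    have h3 : c * Real.log N ≤ 1 / 10 ^ 6 * (9 * (L + 1)) :=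
      mul_le_mul hc2 hlogL hlog.le (by positivity)
    have h4 : (L : ℝ) + 1 ≤ 12 * J + 20 := by exact_mod_cast hJ3
    have h5 : (100 : ℝ) ≤ J := by exact_mod_cast (by omega : 100 ≤ J)
    have h6 : (1000 : ℝ) * t ≤ J := by linarith
    exact_mod_cast h6
  show c * N / Real.log N ≤ ((US (6 * mJ J (t % 2) + 7) t N).ncard : ℝ)
  rw [← mJ_par]
  have h1 := h0 J (by omega) N ((Nat.pow_le_pow_right (by norm_num) hJ2).trans hL1) t ht0
  have h2 : (N : ℝ) ≤ 10 ^ 20 * 10 ^ (12 * J) := by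
    rw [← pow_add]
    have : N ≤ 10 ^ (20 + 12 * J) := hL2.le.trans (Nat.pow_le_pow_right (by norm_num) (by omega))
    exact_mod_cast this
  have hJlog : (J : ℝ) ≤ Real.log N := by
    have h3 : (10 : ℝ) ^ J ≤ N := by
      have : 10 ^ J ≤ N := (Nat.pow_le_pow_right (by norm_num) (by omega)).trans hL1
      exact_mod_cast this
    have h4 := Real.log_le_log (by positivity) h3
    rw [Real.log_pow] at h4
    have h5 : 1 ≤ Real.log 10 := by
      rw [Real.le_log_iff_exp_le (by norm_num)]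
      have := Real.exp_one_lt_d9
      linarith
    have h6 : (J : ℝ) * 1 ≤ J * Real.log 10 := mul_le_mul_of_nonneg_left h5 (Nat.cast_nonneg J)
    linarith
  obtain ⟨U, hU⟩ : ∃ U : ℝ, U = ((US (6 * mJ J t + 7) t N).ncard : ℝ) := ⟨_, rfl⟩
  rw [← hU] at h1 ⊢
  have hTS : (0 : ℝ) ≤ U := by rw [hU]; positivity
  rw [div_le_iff₀ hlog]
  have h3 : (N : ℝ) ≤ 10 ^ 20 * (C * Real.log N * U) := by
    refine h2.trans (mul_le_mul_of_nonneg_left (h1.trans ?_) (by norm_num))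
    exact mul_le_mul_of_nonneg_right (mul_le_mul_of_nonneg_left hJlog hC.le) hTS
  calc c * (N : ℝ) ≤ 1 / (10 ^ 20 * C) * (N : ℝ) :=
        mul_le_mul_of_nonneg_right hc1 (Nat.cast_nonneg N)
    _ ≤ 1 / (10 ^ 20 * C) * (10 ^ 20 * (C * Real.log N * U)) :=
        mul_le_mul_of_nonneg_left h3 (by positivity)
    _ = U * Real.log N := by
        field_simp

theorem st_Fw (t : ℕ) : St (tw 2 1 3 (t + 2)) := st_tw (by norm_num) (by norm_num) (by norm_num) _ _

theorem Fw_inj {t t' : ℕ} (h : Fw t = Fw t') : t = t' := by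
  have h1 := congrArg (Nat.digits 10) h
  rw [Fw, Fw, digits_st (st_Fw t), digits_st (st_Fw t')] at h1
  have h2 := congrArg List.length h1
  simp only [tw, length_append, length_replicate] at h2
  omega

theorem Fw_lt (t : ℕ) : Fw t < 10 ^ (t + 5) := by
  have h := Nat.ofDigits_lt_base_pow_length (b := 10) (by norm_num) (l := tw 2 1 3 (t + 2))
    (fun d hd => by have := ((st_Fw t).2 d hd).2; omega)
  have e : (tw 2 1 3 (t + 2)).length = t + 5 := by
    simp only [tw, length_append, length_replicate]; omega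
  rw [e] at h
  exact h

/-- the numbers up to `N` with a term at most `n ^ δ` -/
def DS (δ : ℝ) (N : ℕ) : Set ℕ :=
  {n | 1 ≤ n ∧ n ≤ N ∧ ∃ k : ℕ, ((rats^[k] n : ℕ) : ℝ) ≤ (n : ℝ) ^ δ}

theorem DS_fin (δ : ℝ) (N : ℕ) : (DS δ N).Finite := (Set.finite_Iic N).subset (fun _ h => h.2.1)

theorem in_DS {δ : ℝ} (hδ : 0 < δ) {N k t n : ℕ} (hN : 1 ≤ N) (hn : n ∈ US k t N)
    (hn2 : N ≤ n * n) (ht : 9 * (t : ℝ) + 45 ≤ δ / 2 * Real.log N) : n ∈ DS δ N := by
  obtain ⟨h1, h2, h3⟩ := hn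
  refine ⟨h1, h2, k, ?_⟩
  rw [h3]
  have hn0 : (0 : ℝ) < n := by exact_mod_cast h1
  have hN0 : (0 : ℝ) < N := by exact_mod_cast hN
  have h4 : ((Fw t : ℕ) : ℝ) ≤ 10 ^ (t + 5) := by exact_mod_cast (Fw_lt t).le
  have h5 : Real.log N ≤ 2 * Real.log n := by
    have : (N : ℝ) ≤ (n : ℝ) * n := by exact_mod_cast hn2
    have h6 := Real.log_le_log hN0 this
    rw [Real.log_mul hn0.ne' hn0.ne'] at h6
    linarith
  have h10 : Real.log 10 ≤ 9 := by
    have := Real.log_le_sub_one_of_pos (x := 10) (by norm_num)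
    linarith
  refine h4.trans ?_
  rw [← Real.log_le_log_iff (by positivity) (Real.rpow_pos_of_pos hn0 δ), Real.log_pow,
    Real.log_rpow hn0]
  have h7 : ((t + 5 : ℕ) : ℝ) * Real.log 10 ≤ ((t + 5 : ℕ) : ℝ) * 9 :=
    mul_le_mul_of_nonneg_left h10 (Nat.cast_nonneg _)
  push_cast at h7 ⊢
  have h8 : δ / 2 * Real.log N ≤ δ / 2 * (2 * Real.log n) :=
    mul_le_mul_of_nonneg_left h5 (by positivity)
  linarith

end Pool.RATC
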