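import Pool.Agent.H19.RATC.Start
import Pool.Agent.H19.RATC.Uni3

/-!
# RATS (MP_a315fd): from `11222` to `123334444`; the two counts
-/

set_option autoImplicit false

namespace Pool.RATC

open List Pool.RAT

theorem f0 : rats 11222 = 33334 :=
  conc 11222 33334 [2, 2, 2, 1, 1] [3, 3, 4, 3, 3] [4, 3, 3, 3, 3] (by simp [Nat.ofDigits_cons]) (by simp [Nat.ofDigits_cons]) (by decide)
    (by decide) (by simp [cs, Nat.ofDigits_cons]) (by decide) (by decide)

theorem f1 : rats 33334 = 66677 :=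
  conc 33334 66677 [4, 3, 3, 3, 3] [7, 6, 6, 6, 7] [7, 7, 6, 6, 6] (by simp [Nat.ofDigits_cons]) (by simp [Nat.ofDigits_cons]) (by decide)
    (by decide) (by simp [cs, Nat.ofDigits_cons]) (by decide) (by decide)

theorem f2 : rats 66677 = 133444 :=
  conc 66677 133444 [7, 7, 6, 6, 6] [3, 4, 3, 4, 4, 1] [4, 4, 4, 3, 3, 1] (by simp [Nat.ofDigits_cons]) (by simp [Nat.ofDigits_cons]) (by decide)
    (by decide) (by simp [cs, Nat.ofDigits_cons]) (by decide) (by decide)

theorem f3 : rats 133444 = 557777 :=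
  conc 133444 557777 [4, 4, 4, 3, 3, 1] [5, 7, 7, 7, 7, 5] [7, 7, 7, 7, 5, 5] (by simp [Nat.ofDigits_cons]) (by simp [Nat.ofDigits_cons]) (by decide)
    (by decide) (by simp [cs, Nat.ofDigits_cons]) (by decide) (by decide)

theorem f4 : rats 557777 = 1233355 :=
  conc 557777 1233355 [7, 7, 7, 7, 5, 5] [2, 3, 5, 5, 3, 3, 1] [5, 5, 3, 3, 3, 2, 1] (by simp [Nat.ofDigits_cons]) (by simp [Nat.ofDigits_cons]) (by decide)
    (by decide) (by simp [cs, Nat.ofDigits_cons]) (by decide) (by decide)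

theorem f5 : rats 1233355 = 6666677 :=
  conc 1233355 6666677 [5, 5, 3, 3, 3, 2, 1] [6, 7, 6, 6, 6, 7, 6] [7, 7, 6, 6, 6, 6, 6] (by simp [Nat.ofDigits_cons]) (by simp [Nat.ofDigits_cons]) (by decide)
    (by decide) (by simp [cs, Nat.ofDigits_cons]) (by decide) (by decide)

theorem f6 : rats 6666677 = 13333444 :=
  conc 6666677 13333444 [7, 7, 6, 6, 6, 6, 6] [3, 4, 3, 3, 3, 4, 4, 1] [4, 4, 4, 3, 3, 3, 3, 1] (by simp [Nat.ofDigits_cons]) (by simp [Nat.ofDigits_cons]) (by decide)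
    (by decide) (by simp [cs, Nat.ofDigits_cons]) (by decide) (by decide)

theorem f7 : rats 13333444 = 55667777 :=
  conc 13333444 55667777 [4, 4, 4, 3, 3, 3, 3, 1] [5, 7, 7, 6, 6, 7, 7, 5] [7, 7, 7, 7, 6, 6, 5, 5] (by simp [Nat.ofDigits_cons]) (by simp [Nat.ofDigits_cons]) (by decide)
    (by decide) (by simp [cs, Nat.ofDigits_cons]) (by decide) (by decide)

theorem f8 : rats 55667777 = 123334444 :=
  conc 55667777 123334444 [7, 7, 7, 7, 6, 6, 5, 5] [2, 3, 4, 4, 4, 4, 3, 3, 1] [4, 4, 4, 4, 3, 3, 3, 2, 1] (by simp [Nat.ofDigits_cons]) (by simp [Nat.ofDigits_cons]) (by decide)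
    (by decide) (by simp [cs, Nat.ofDigits_cons]) (by decide) (by decide)

theorem trib_start : Trib (Fw 0) := by
  have e : Fw 0 = 11222 := by
    simp [Fw, tw, replicate_succ, Nat.ofDigits_cons]
  rw [e]
  refine ⟨9, 3, by norm_num, ?_⟩
  simp only [Function.iterate_succ_apply, Function.iterate_zero_apply, f0, f1, f2, f3, f4, f5, f6,
    f7, f8]
  simp [bA, replicate_succ, Nat.ofDigits_cons]

theorem trib_of_hit {n k : ℕ} (h : rats^[k] n = Fw 0) : Trib n :=
  trib_iter k (h ▸ trib_start)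

theorem cyc_of_hit {n k : ℕ} (h : rats^[k] n = Fw 1) : Cyc n :=
  cyc_iter k (h ▸ cyc_start)

end Pool.RATC
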