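import Pool.Agent.H19.RATC.Tree2

/-!
# RATS (MP_a315fd): at least `c N / (log N) ^ 0.999` numbers with a good fate
-/

set_option autoImplicit false

namespace Pool.RATC

open List Pool.RAT

theorem many {R P : ℕ → Prop} (hR : ∀ t t' j : ℕ, rats^[j] (Fw t) = Fw t' → R t' → R t) {t0 : ℕ}
    (h0 : R t0) (hc0 : Cl t0 = true) (ht0 : t0 < 64 ^ 2)
    (hP : ∀ n k t, R t → rats^[k] n = Fw t → P n) :
    ∃ c : ℝ, 0 < c ∧ ∃ N1 : ℕ, ∀ N : ℕ, N1 ≤ N →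
      c * N / (Real.log N) ^ (999 / 1000 : ℝ) ≤
        (({n : ℕ | 1 ≤ n ∧ n ≤ N ∧ P n}).ncard : ℝ) := by
  classical
  obtain ⟨c, hc, N0, h⟩ := densityU
  obtain ⟨N2, hN2⟩ : ∃ N2 : ℕ, N2 = ⌈Real.exp (4096 / c)⌉₊ := ⟨_, rfl⟩
  refine ⟨c * c ^ (1 / 1000 : ℝ) / 4, by positivity, max (max N0 2) N2, fun N hN => ?_⟩
  have g0 : N0 ≤ N := le_trans (le_trans (le_max_left _ _) (le_max_left _ _)) hN
  have g1 : 2 ≤ N := le_trans (le_trans (le_max_right _ _) (le_max_left _ _)) hN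
  have g2 : N2 ≤ N := le_trans (le_max_right _ _) hN
  have hNr : (2 : ℝ) ≤ N := by exact_mod_cast g1
  obtain ⟨l, hl⟩ : ∃ l : ℝ, l = Real.log N := ⟨_, rfl⟩
  have hl0 : 0 < l := by rw [hl]; exact Real.log_pos (by linarith)
  have hX : 4096 ≤ c * l := by
    have h1 : Real.exp (4096 / c) ≤ N := by
      refine (Nat.le_ceil _).trans ?_
      rw [← hN2]
      exact_mod_cast g2
    have h2 : 4096 / c ≤ l := by
      rw [hl, Real.le_log_iff_exp_le (by linarith)]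
      exact h1
    rw [div_le_iff₀ hc] at h2
    linarith
  obtain ⟨X, hXd⟩ : ∃ X : ℝ, X = c * l := ⟨_, rfl⟩
  rw [← hXd] at hX
  obtain ⟨n, hn1, hn2⟩ := exists_nat_pow_near (x := X / 4096) (y := (64 : ℝ) ^ 156)
    (by rw [le_div_iff₀ (by norm_num)]; linarith) (by norm_num)
  obtain ⟨S, hS1, hS2⟩ := grow hR h0 hc0 ht0 n
  obtain ⟨K, hK⟩ := h N g0
  -- one parity
  obtain ⟨e, he, S', hS', hS'c⟩ : ∃ e, e < 2 ∧ ∃ S' : Finset ℕ, (∀ t ∈ S', t ∈ S ∧ t % 2 = e) ∧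
      2 ^ n ≤ 2 * S'.card := by
    have h1 := Finset.card_filter_add_card_filter_not (s := S) (fun t => t % 2 = 0)
    rcases le_total (2 ^ n) (2 * (S.filter (fun t => t % 2 = 0)).card) with h2 | h2
    · exact ⟨0, by norm_num, _, fun t ht => Finset.mem_filter.mp ht, h2⟩
    · refine ⟨1, by norm_num, S.filter (fun t => ¬ t % 2 = 0), fun t ht => ?_, ?_⟩
      · obtain ⟨h3, h4⟩ := Finset.mem_filter.mp ht
        exact ⟨h3, by omega⟩
      · omega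
  have htX : ∀ t ∈ S', (t : ℝ) ≤ c * l := by
    intro t ht
    have h1 := (hS2 t (hS' t ht).1).2.2
    have h2 : (t : ℝ) ≤ 64 ^ (2 + 156 * n) := by exact_mod_cast h1.le
    have h3 : (64 : ℝ) ^ (2 + 156 * n) = 4096 * (64 ^ 156) ^ n := by
      rw [pow_add, pow_mul]
      norm_num
    rw [le_div_iff₀ (by norm_num)] at hn1
    rw [← hXd]
    linarith
  have hcard : ∀ t ∈ S', c * N / l ≤ (((US_fin (K e) t N).toFinset.card : ℕ) : ℝ) := by
    intro t ht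
    have h1 := hK t (by rw [← hl]; exact htX t ht)
    rw [(hS' t ht).2, Set.ncard_eq_toFinset_card _ (US_fin _ _ _), ← hl] at h1
    exact h1
  obtain ⟨W, hW⟩ : ∃ W : Finset ℕ, W = S'.biUnion (fun t => (US_fin (K e) t N).toFinset) :=
    ⟨_, rfl⟩
  have hWc : W.card = ∑ t ∈ S', (US_fin (K e) t N).toFinset.card := by
    rw [hW]
    apply Finset.card_biUnion
    intro i _ j _ hij
    rw [Function.onFun, Finset.disjoint_left]
    intro x h1 h2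
    rw [Set.Finite.mem_toFinset] at h1 h2
    exact hij (Fw_inj (h1.2.2.symm.trans h2.2.2))
  have hfin : ({n : ℕ | 1 ≤ n ∧ n ≤ N ∧ P n}).Finite :=
    (Set.finite_Iic N).subset (fun _ h => h.2.1)
  have hsub : W ⊆ hfin.toFinset := by
    intro x hx
    rw [hW, Finset.mem_biUnion] at hx
    obtain ⟨t, ht, hxt⟩ := hx
    rw [Set.Finite.mem_toFinset] at hxt
    rw [Set.Finite.mem_toFinset]
    exact ⟨hxt.1, hxt.2.1, hP x _ t (hS2 t (hS' t ht).1).1 hxt.2.2⟩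
  have hc1 := Finset.card_le_card hsub
  rw [← Set.ncard_eq_toFinset_card _ hfin] at hc1
  have hWr : (S'.card : ℝ) * (c * N / l) ≤ (W.card : ℝ) := by
    have h1 : ∑ t ∈ S', c * N / l ≤ (W.card : ℝ) := by
      rw [hWc]
      push_cast
      exact Finset.sum_le_sum hcard
    rwa [Finset.sum_const, nsmul_eq_mul] at h1
  have hpow : X ^ (1 / 1000 : ℝ) ≤ 4 * (S'.card : ℝ) := by
    have hX0 : 0 ≤ X := by linarith
    have h1 : X ≤ (2 ^ (n + 1)) ^ 1000 := by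
      have h2 : X < 4096 * (64 ^ 156) ^ (n + 1) := by
        rw [div_lt_iff₀ (by norm_num)] at hn2
        linarith
      have h3 : (4096 : ℝ) * (64 ^ 156) ^ (n + 1) = 2 ^ (12 + 936 * (n + 1)) := by
        have a1 : (4096 : ℝ) = 2 ^ 12 := by norm_num
        have a2 : (64 : ℝ) = 2 ^ 6 := by norm_num
        rw [a1, a2, ← pow_mul, ← pow_mul, ← pow_add,
          show 12 + 6 * (156 * (n + 1)) = 12 + 936 * (n + 1) by ring]
      have h4 : (2 : ℝ) ^ (12 + 936 * (n + 1)) ≤ 2 ^ ((n + 1) * 1000) :=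
        pow_le_pow_right₀ (by norm_num) (by omega)
      rw [← pow_mul]
      linarith
    have h5 : X ^ (1 / 1000 : ℝ) ≤ ((2 ^ (n + 1)) ^ 1000 : ℝ) ^ (1 / 1000 : ℝ) :=
      Real.rpow_le_rpow hX0 h1 (by norm_num)
    have h6 : (((2 : ℝ) ^ (n + 1)) ^ 1000 : ℝ) ^ (1 / 1000 : ℝ) = 2 ^ (n + 1) := by
      rw [← Real.rpow_natCast ((2 : ℝ) ^ (n + 1)) 1000, ← Real.rpow_mul (by positivity)]
      norm_num
    rw [h6] at h5
    have h7 : (2 : ℝ) ^ n ≤ 2 * S'.card := by exact_mod_cast hS'c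
    rw [pow_succ] at h5
    linarith
  have hl1 : l ^ (999 / 1000 : ℝ) * l ^ (1 / 1000 : ℝ) = l := by
    rw [← Real.rpow_add hl0]
    norm_num
  have hX2 : X ^ (1 / 1000 : ℝ) = c ^ (1 / 1000 : ℝ) * l ^ (1 / 1000 : ℝ) := by
    rw [hXd, Real.mul_rpow hc.le hl0.le]
  rw [← hl]
  obtain ⟨p, hp⟩ : ∃ p : ℝ, p = l ^ (999 / 1000 : ℝ) := ⟨_, rfl⟩
  obtain ⟨r, hr⟩ : ∃ r : ℝ, r = l ^ (1 / 1000 : ℝ) := ⟨_, rfl⟩
  obtain ⟨a, ha⟩ : ∃ a : ℝ, a = c ^ (1 / 1000 : ℝ) := ⟨_, rfl⟩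
  have hp0 : 0 < p := by rw [hp]; positivity
  have hr0 : 0 < r := by rw [hr]; positivity
  have ha0 : 0 < a := by rw [ha]; positivity
  rw [← hp, ← hr] at hl1
  rw [hX2, ← hr, ← ha] at hpow
  rw [← hp, ← ha]
  have h8 : c * a / 4 * N / p = (a * r / 4) * (c * N / l) := by
    rw [← hl1]
    field_simp
  rw [h8]
  have h9 : (a * r / 4) * (c * N / l) ≤ (S'.card : ℝ) * (c * N / l) :=
    mul_le_mul_of_nonneg_right (by linarith) (by positivity)
  have h10 : (W.card : ℝ) ≤ (({n : ℕ | 1 ≤ n ∧ n ≤ N ∧ P n}).ncard : ℝ) := by exact_mod_cast hc1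
  linarith

end Pool.RATC
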