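import Pool.Agent.H19.RATC.Ends
import Pool.Agent.H19.RATC.Tree3

/-!
# RATS (MP_a315fd): two good `t` in the right classes: `t = 4` (cycle of `111`), `t = 14` (Conway)
-/

set_option autoImplicit false

namespace Pool.RATC

open List Pool.RAT

theorem g0 : rats 111111222 = 222333333 :=
  conc 111111222 222333333 [2, 2, 2, 1, 1, 1, 1, 1, 1] [3, 3, 3, 2, 2, 2, 3, 3, 3] [3, 3, 3, 3, 3, 3, 2, 2, 2] (by simp [Nat.ofDigits_cons]) (by simp [Nat.ofDigits_cons]) (by decide)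
    (by decide) (by simp [cs, Nat.ofDigits_cons]) (by decide) (by decide)

theorem g1 : rats 222333333 = 555555666 :=
  conc 222333333 555555666 [3, 3, 3, 3, 3, 3, 2, 2, 2] [5, 5, 5, 6, 6, 6, 5, 5, 5] [6, 6, 6, 5, 5, 5, 5, 5, 5] (by simp [Nat.ofDigits_cons]) (by simp [Nat.ofDigits_cons]) (by decide)
    (by decide) (by simp [cs, Nat.ofDigits_cons]) (by decide) (by decide)

theorem g2 : rats 555555666 = 1111122222 :=
  conc 555555666 1111122222 [6, 6, 6, 5, 5, 5, 5, 5, 5] [1, 2, 2, 1, 1, 1, 2, 2, 2, 1] [2, 2, 2, 2, 2, 1, 1, 1, 1, 1] (by simp [Nat.ofDigits_cons]) (by simp [Nat.ofDigits_cons]) (by decide)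
    (by decide) (by simp [cs, Nat.ofDigits_cons]) (by decide) (by decide)

theorem g3 : rats 1111122222 = 3333333333 :=
  conc 1111122222 3333333333 [2, 2, 2, 2, 2, 1, 1, 1, 1, 1] [3, 3, 3, 3, 3, 3, 3, 3, 3, 3] [3, 3, 3, 3, 3, 3, 3, 3, 3, 3] (by simp [Nat.ofDigits_cons]) (by simp [Nat.ofDigits_cons]) (by decide)
    (by decide) (by simp [cs, Nat.ofDigits_cons]) (by decide) (by decide)

theorem g4 : rats 3333333333 = 6666666666 :=
  conc 3333333333 6666666666 [3, 3, 3, 3, 3, 3, 3, 3, 3, 3] [6, 6, 6, 6, 6, 6, 6, 6, 6, 6] [6, 6, 6, 6, 6, 6, 6, 6, 6, 6] (by simp [Nat.ofDigits_cons]) (by simp [Nat.ofDigits_cons]) (by decide)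
    (by decide) (by simp [cs, Nat.ofDigits_cons]) (by decide) (by decide)

theorem g5 : rats 6666666666 = 12333333333 :=
  conc 6666666666 12333333333 [6, 6, 6, 6, 6, 6, 6, 6, 6, 6] [2, 3, 3, 3, 3, 3, 3, 3, 3, 3, 1] [3, 3, 3, 3, 3, 3, 3, 3, 3, 2, 1] (by simp [Nat.ofDigits_cons]) (by simp [Nat.ofDigits_cons]) (by decide)
    (by decide) (by simp [cs, Nat.ofDigits_cons]) (by decide) (by decide)

theorem g6 : rats 12333333333 = 44556666666 :=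
  conc 12333333333 44556666666 [3, 3, 3, 3, 3, 3, 3, 3, 3, 2, 1] [4, 5, 6, 6, 6, 6, 6, 6, 6, 5, 4] [6, 6, 6, 6, 6, 6, 6, 5, 5, 4, 4] (by simp [Nat.ofDigits_cons]) (by simp [Nat.ofDigits_cons]) (by decide)
    (by decide) (by simp [cs, Nat.ofDigits_cons]) (by decide) (by decide)

theorem g7 : rats 44556666666 = 11112222333 :=
  conc 44556666666 11112222333 [6, 6, 6, 6, 6, 6, 6, 5, 5, 4, 4] [0, 1, 2, 2, 3, 3, 3, 2, 2, 1, 1, 1] [3, 3, 3, 2, 2, 2, 2, 1, 1, 1, 1] (by simp [Nat.ofDigits_cons]) (by simp [Nat.ofDigits_cons]) (by decide)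
    (by decide) (by simp [cs, Nat.ofDigits_cons]) (by decide) (by decide)

theorem g8 : rats 11112222333 = 33444444444 :=
  conc 11112222333 33444444444 [3, 3, 3, 2, 2, 2, 2, 1, 1, 1, 1] [4, 4, 4, 3, 4, 4, 4, 3, 4, 4, 4] [4, 4, 4, 4, 4, 4, 4, 4, 4, 3, 3] (by simp [Nat.ofDigits_cons]) (by simp [Nat.ofDigits_cons]) (by decide)
    (by decide) (by simp [cs, Nat.ofDigits_cons]) (by decide) (by decide)

theorem g9 : rats 33444444444 = 77778888888 :=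
  conc 33444444444 77778888888 [4, 4, 4, 4, 4, 4, 4, 4, 4, 3, 3] [7, 7, 8, 8, 8, 8, 8, 8, 8, 7, 7] [8, 8, 8, 8, 8, 8, 8, 7, 7, 7, 7] (by simp [Nat.ofDigits_cons]) (by simp [Nat.ofDigits_cons]) (by decide)
    (by decide) (by simp [cs, Nat.ofDigits_cons]) (by decide) (by decide)

theorem g10 : rats 77778888888 = 156666666777 :=
  conc 77778888888 156666666777 [8, 8, 8, 8, 8, 8, 8, 7, 7, 7, 7] [5, 6, 6, 6, 7, 7, 7, 6, 6, 6, 6, 1] [7, 7, 7, 6, 6, 6, 6, 6, 6, 6, 5, 1] (by simp [Nat.ofDigits_cons]) (by simp [Nat.ofDigits_cons]) (by decide)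
    (by decide) (by simp [cs, Nat.ofDigits_cons]) (by decide) (by decide)

theorem g11 : rats 156666666777 = 233333334489 :=
  conc 156666666777 233333334489 [7, 7, 7, 6, 6, 6, 6, 6, 6, 6, 5, 1] [8, 2, 4, 3, 3, 3, 3, 3, 3, 4, 3, 9] [9, 8, 4, 4, 3, 3, 3, 3, 3, 3, 3, 2] (by simp [Nat.ofDigits_cons]) (by simp [Nat.ofDigits_cons]) (by decide)
    (by decide) (by simp [cs, Nat.ofDigits_cons]) (by decide) (by decide)

theorem g12 : rats 233333334489 = 1112266667778 :=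
  conc 233333334489 1112266667778 [9, 8, 4, 4, 3, 3, 3, 3, 3, 3, 3, 2] [1, 2, 8, 7, 6, 6, 6, 6, 7, 7, 1, 2, 1] [8, 7, 7, 7, 6, 6, 6, 6, 2, 2, 1, 1, 1] (by simp [Nat.ofDigits_cons]) (by simp [Nat.ofDigits_cons]) (by decide)
    (by decide) (by simp [cs, Nat.ofDigits_cons]) (by decide) (by decide)

theorem g13 : rats 1112266667778 = 2338888899999 :=
  conc 1112266667778 2338888899999 [8, 7, 7, 7, 6, 6, 6, 6, 2, 2, 1, 1, 1] [9, 8, 8, 9, 8, 2, 3, 3, 9, 9, 8, 8, 9] [9, 9, 9, 9, 9, 8, 8, 8, 8, 8, 3, 3, 2] (by simp [Nat.ofDigits_cons]) (by simp [Nat.ofDigits_cons]) (by decide)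
    (by decide) (by simp [cs, Nat.ofDigits_cons]) (by decide) (by decide)

theorem g14 : rats 2338888899999 = 11233337778888 :=
  conc 2338888899999 11233337778888 [9, 9, 9, 9, 9, 8, 8, 8, 8, 8, 3, 3, 2] [1, 3, 3, 8, 8, 7, 7, 7, 8, 8, 3, 3, 2, 1] [8, 8, 8, 8, 7, 7, 7, 3, 3, 3, 3, 2, 1, 1] (by simp [Nat.ofDigits_cons]) (by simp [Nat.ofDigits_cons]) (by decide)
    (by decide) (by simp [cs, Nat.ofDigits_cons]) (by decide) (by decide)

theorem g15 : rats 11233337778888 = 111111112299 :=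
  conc 11233337778888 111111112299 [8, 8, 8, 8, 7, 7, 7, 3, 3, 3, 3, 2, 1, 1] [9, 9, 0, 2, 1, 1, 1, 1, 1, 1, 2, 1, 0, 0, 1] [9, 9, 2, 2, 1, 1, 1, 1, 1, 1, 1, 1] (by simp [Nat.ofDigits_cons]) (by simp [Nat.ofDigits_cons]) (by decide)
    (by decide) (by simp [cs, Nat.ofDigits_cons]) (by decide) (by decide)

theorem g16 : rats 111111112299 = 11122223334 :=
  conc 111111112299 11122223334 [9, 9, 2, 2, 1, 1, 1, 1, 1, 1, 1, 1] [0, 1, 4, 3, 2, 2, 2, 2, 3, 3, 0, 1, 1] [4, 3, 3, 3, 2, 2, 2, 2, 1, 1, 1] (by simp [Nat.ofDigits_cons]) (by simp [Nat.ofDigits_cons]) (by decide)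
    (by decide) (by simp [cs, Nat.ofDigits_cons]) (by decide) (by decide)

theorem g17 : rats 11122223334 = 44444445555 :=
  conc 11122223334 44444445555 [4, 3, 3, 3, 2, 2, 2, 2, 1, 1, 1] [5, 4, 4, 5, 4, 4, 4, 5, 4, 4, 5] [5, 5, 5, 5, 4, 4, 4, 4, 4, 4, 4] (by simp [Nat.ofDigits_cons]) (by simp [Nat.ofDigits_cons]) (by decide)
    (by decide) (by simp [cs, Nat.ofDigits_cons]) (by decide) (by decide)

theorem g18 : rats 44444445555 = 88899999999 :=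
  conc 44444445555 88899999999 [5, 5, 5, 5, 4, 4, 4, 4, 4, 4, 4] [9, 9, 9, 9, 8, 8, 8, 9, 9, 9, 9] [9, 9, 9, 9, 9, 9, 9, 9, 8, 8, 8] (by simp [Nat.ofDigits_cons]) (by simp [Nat.ofDigits_cons]) (by decide)
    (by decide) (by simp [cs, Nat.ofDigits_cons]) (by decide) (by decide)

theorem g19 : rats 88899999999 = 178888899999 :=
  conc 88899999999 178888899999 [9, 9, 9, 9, 9, 9, 9, 9, 8, 8, 8] [7, 8, 8, 9, 9, 9, 9, 9, 8, 8, 8, 1] [9, 9, 9, 9, 9, 8, 8, 8, 8, 8, 7, 1] (by simp [Nat.ofDigits_cons]) (by simp [Nat.ofDigits_cons]) (by decide)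
    (by decide) (by simp [cs, Nat.ofDigits_cons]) (by decide) (by decide)

theorem g20 : rats 178888899999 = 117777888888 :=
  conc 178888899999 117777888888 [9, 9, 9, 9, 9, 8, 8, 8, 8, 8, 7, 1] [0, 7, 8, 8, 8, 7, 7, 8, 8, 8, 7, 1, 1] [8, 8, 8, 8, 8, 8, 7, 7, 7, 7, 1, 1] (by simp [Nat.ofDigits_cons]) (by simp [Nat.ofDigits_cons]) (by decide)
    (by decide) (by simp [cs, Nat.ofDigits_cons]) (by decide) (by decide)

theorem g21 : rats 117777888888 = 15666666699 :=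
  conc 117777888888 15666666699 [8, 8, 8, 8, 8, 8, 7, 7, 7, 7, 1, 1] [9, 9, 5, 6, 6, 6, 6, 6, 6, 6, 0, 0, 1] [9, 9, 6, 6, 6, 6, 6, 6, 6, 5, 1] (by simp [Nat.ofDigits_cons]) (by simp [Nat.ofDigits_cons]) (by decide)
    (by decide) (by simp [cs, Nat.ofDigits_cons]) (by decide) (by decide)

theorem g22 : rats 15666666699 = 11333333355 :=
  conc 15666666699 11333333355 [9, 9, 6, 6, 6, 6, 6, 6, 6, 5, 1] [0, 5, 3, 3, 3, 3, 3, 3, 3, 5, 1, 1] [5, 5, 3, 3, 3, 3, 3, 3, 3, 1, 1] (by simp [Nat.ofDigits_cons]) (by simp [Nat.ofDigits_cons]) (by decide)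
    (by decide) (by simp [cs, Nat.ofDigits_cons]) (by decide) (by decide)

theorem g23 : rats 11333333355 = 66666666666 :=
  conc 11333333355 66666666666 [5, 5, 3, 3, 3, 3, 3, 3, 3, 1, 1] [6, 6, 6, 6, 6, 6, 6, 6, 6, 6, 6] [6, 6, 6, 6, 6, 6, 6, 6, 6, 6, 6] (by simp [Nat.ofDigits_cons]) (by simp [Nat.ofDigits_cons]) (by decide)
    (by decide) (by simp [cs, Nat.ofDigits_cons]) (by decide) (by decide)

theorem g24 : rats 66666666666 = 123333333333 :=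
  conc 66666666666 123333333333 [6, 6, 6, 6, 6, 6, 6, 6, 6, 6, 6] [2, 3, 3, 3, 3, 3, 3, 3, 3, 3, 3, 1] [3, 3, 3, 3, 3, 3, 3, 3, 3, 3, 2, 1] (by simp [Nat.ofDigits_cons]) (by simp [Nat.ofDigits_cons]) (by decide)
    (by decide) (by simp [cs, Nat.ofDigits_cons]) (by decide) (by decide)

theorem g25 : rats 123333333333 = 445566666666 :=
  conc 123333333333 445566666666 [3, 3, 3, 3, 3, 3, 3, 3, 3, 3, 2, 1] [4, 5, 6, 6, 6, 6, 6, 6, 6, 6, 5, 4] [6, 6, 6, 6, 6, 6, 6, 6, 5, 5, 4, 4] (by simp [Nat.ofDigits_cons]) (by simp [Nat.ofDigits_cons]) (by decide)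
    (by decide) (by simp [cs, Nat.ofDigits_cons]) (by decide) (by decide)

theorem g26 : rats 445566666666 = 111122223333 :=
  conc 445566666666 111122223333 [6, 6, 6, 6, 6, 6, 6, 6, 5, 5, 4, 4] [0, 1, 2, 2, 3, 3, 3, 3, 2, 2, 1, 1, 1] [3, 3, 3, 3, 2, 2, 2, 2, 1, 1, 1, 1] (by simp [Nat.ofDigits_cons]) (by simp [Nat.ofDigits_cons]) (by decide)
    (by decide) (by simp [cs, Nat.ofDigits_cons]) (by decide) (by decide)

theorem g27 : rats 111122223333 = 444444444444 :=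
  conc 111122223333 444444444444 [3, 3, 3, 3, 2, 2, 2, 2, 1, 1, 1, 1] [4, 4, 4, 4, 4, 4, 4, 4, 4, 4, 4, 4] [4, 4, 4, 4, 4, 4, 4, 4, 4, 4, 4, 4] (by simp [Nat.ofDigits_cons]) (by simp [Nat.ofDigits_cons]) (by decide)
    (by decide) (by simp [cs, Nat.ofDigits_cons]) (by decide) (by decide)

theorem g28 : rats 444444444444 = 888888888888 :=
  conc 444444444444 888888888888 [4, 4, 4, 4, 4, 4, 4, 4, 4, 4, 4, 4] [8, 8, 8, 8, 8, 8, 8, 8, 8, 8, 8, 8] [8, 8, 8, 8, 8, 8, 8, 8, 8, 8, 8, 8] (by simp [Nat.ofDigits_cons]) (by simp [Nat.ofDigits_cons]) (by decide)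
    (by decide) (by simp [cs, Nat.ofDigits_cons]) (by decide) (by decide)

theorem g29 : rats 888888888888 = 1677777777777 :=
  conc 888888888888 1677777777777 [8, 8, 8, 8, 8, 8, 8, 8, 8, 8, 8, 8] [6, 7, 7, 7, 7, 7, 7, 7, 7, 7, 7, 7, 1] [7, 7, 7, 7, 7, 7, 7, 7, 7, 7, 7, 6, 1] (by simp [Nat.ofDigits_cons]) (by simp [Nat.ofDigits_cons]) (by decide)
    (by decide) (by simp [cs, Nat.ofDigits_cons]) (by decide) (by decide)

theorem g30 : rats 1677777777777 = 3455555555589 :=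
  conc 1677777777777 3455555555589 [7, 7, 7, 7, 7, 7, 7, 7, 7, 7, 7, 6, 1] [8, 3, 5, 5, 5, 5, 5, 5, 5, 5, 5, 4, 9] [9, 8, 5, 5, 5, 5, 5, 5, 5, 5, 5, 4, 3] (by simp [Nat.ofDigits_cons]) (by simp [Nat.ofDigits_cons]) (by decide)
    (by decide) (by simp [cs, Nat.ofDigits_cons]) (by decide) (by decide)

theorem g31 : rats 3455555555589 = 11111111112333 :=
  conc 3455555555589 11111111112333 [9, 8, 5, 5, 5, 5, 5, 5, 5, 5, 5, 4, 3] [2, 3, 1, 1, 1, 1, 1, 1, 1, 1, 1, 3, 3, 1] [3, 3, 3, 2, 1, 1, 1, 1, 1, 1, 1, 1, 1, 1] (by simp [Nat.ofDigits_cons]) (by simp [Nat.ofDigits_cons]) (by decide)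
    (by decide) (by simp [cs, Nat.ofDigits_cons]) (by decide) (by decide)

theorem g32 : rats 11111111112333 = 22222233444444 :=
  conc 11111111112333 22222233444444 [3, 3, 3, 2, 1, 1, 1, 1, 1, 1, 1, 1, 1, 1] [4, 4, 4, 3, 2, 2, 2, 2, 2, 2, 3, 4, 4, 4] [4, 4, 4, 4, 4, 4, 3, 3, 2, 2, 2, 2, 2, 2] (by simp [Nat.ofDigits_cons]) (by simp [Nat.ofDigits_cons]) (by decide)
    (by decide) (by simp [cs, Nat.ofDigits_cons]) (by decide) (by decide)

theorem g33 : rats 22222233444444 = 66666666666666 :=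
  conc 22222233444444 66666666666666 [4, 4, 4, 4, 4, 4, 3, 3, 2, 2, 2, 2, 2, 2] [6, 6, 6, 6, 6, 6, 6, 6, 6, 6, 6, 6, 6, 6] [6, 6, 6, 6, 6, 6, 6, 6, 6, 6, 6, 6, 6, 6] (by simp [Nat.ofDigits_cons]) (by simp [Nat.ofDigits_cons]) (by decide)
    (by decide) (by simp [cs, Nat.ofDigits_cons]) (by decide) (by decide)

theorem g34 : rats 66666666666666 = 123333333333333 :=
  conc 66666666666666 123333333333333 [6, 6, 6, 6, 6, 6, 6, 6, 6, 6, 6, 6, 6, 6] [2, 3, 3, 3, 3, 3, 3, 3, 3, 3, 3, 3, 3, 3, 1] [3, 3, 3, 3, 3, 3, 3, 3, 3, 3, 3, 3, 3, 2, 1] (by simp [Nat.ofDigits_cons]) (by simp [Nat.ofDigits_cons]) (by decide)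
    (by decide) (by simp [cs, Nat.ofDigits_cons]) (by decide) (by decide)

theorem g35 : rats 123333333333333 = 445566666666666 :=
  conc 123333333333333 445566666666666 [3, 3, 3, 3, 3, 3, 3, 3, 3, 3, 3, 3, 3, 2, 1] [4, 5, 6, 6, 6, 6, 6, 6, 6, 6, 6, 6, 6, 5, 4] [6, 6, 6, 6, 6, 6, 6, 6, 6, 6, 6, 5, 5, 4, 4] (by simp [Nat.ofDigits_cons]) (by simp [Nat.ofDigits_cons]) (by decide)
    (by decide) (by simp [cs, Nat.ofDigits_cons]) (by decide) (by decide)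

theorem g36 : rats 445566666666666 = 111122223333333 :=
  conc 445566666666666 111122223333333 [6, 6, 6, 6, 6, 6, 6, 6, 6, 6, 6, 5, 5, 4, 4] [0, 1, 2, 2, 3, 3, 3, 3, 3, 3, 3, 2, 2, 1, 1, 1] [3, 3, 3, 3, 3, 3, 3, 2, 2, 2, 2, 1, 1, 1, 1] (by simp [Nat.ofDigits_cons]) (by simp [Nat.ofDigits_cons]) (by decide)
    (by decide) (by simp [cs, Nat.ofDigits_cons]) (by decide) (by decide)

theorem g37 : rats 111122223333333 = 444444444555555 :=
  conc 111122223333333 444444444555555 [3, 3, 3, 3, 3, 3, 3, 2, 2, 2, 2, 1, 1, 1, 1] [4, 4, 4, 4, 5, 5, 5, 4, 5, 5, 5, 4, 4, 4, 4] [5, 5, 5, 5, 5, 5, 4, 4, 4, 4, 4, 4, 4, 4, 4] (by simp [Nat.ofDigits_cons]) (by simp [Nat.ofDigits_cons]) (by decide)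
    (by decide) (by simp [cs, Nat.ofDigits_cons]) (by decide) (by decide)

theorem g38 : rats 444444444555555 = 888999999999999 :=
  conc 444444444555555 888999999999999 [5, 5, 5, 5, 5, 5, 4, 4, 4, 4, 4, 4, 4, 4, 4] [9, 9, 9, 9, 9, 9, 8, 8, 8, 9, 9, 9, 9, 9, 9] [9, 9, 9, 9, 9, 9, 9, 9, 9, 9, 9, 9, 8, 8, 8] (by simp [Nat.ofDigits_cons]) (by simp [Nat.ofDigits_cons]) (by decide)
    (by decide) (by simp [cs, Nat.ofDigits_cons]) (by decide) (by decide)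

theorem g39 : rats 888999999999999 = 1788888999999999 :=
  conc 888999999999999 1788888999999999 [9, 9, 9, 9, 9, 9, 9, 9, 9, 9, 9, 9, 8, 8, 8] [7, 8, 8, 9, 9, 9, 9, 9, 9, 9, 9, 9, 8, 8, 8, 1] [9, 9, 9, 9, 9, 9, 9, 9, 9, 8, 8, 8, 8, 8, 7, 1] (by simp [Nat.ofDigits_cons]) (by simp [Nat.ofDigits_cons]) (by decide)
    (by decide) (by simp [cs, Nat.ofDigits_cons]) (by decide) (by decide)

theorem g40 : rats 1788888999999999 = 1177888888888899 :=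
  conc 1788888999999999 1177888888888899 [9, 9, 9, 9, 9, 9, 9, 9, 9, 8, 8, 8, 8, 8, 7, 1] [0, 7, 8, 8, 8, 8, 8, 9, 9, 8, 8, 8, 8, 8, 7, 1, 1] [9, 9, 8, 8, 8, 8, 8, 8, 8, 8, 8, 8, 7, 7, 1, 1] (by simp [Nat.ofDigits_cons]) (by simp [Nat.ofDigits_cons]) (by decide)
    (by decide) (by simp [cs, Nat.ofDigits_cons]) (by decide) (by decide)

theorem g41 : rats 1177888888888899 = 1111666677777777 :=
  conc 1177888888888899 1111666677777777 [9, 9, 8, 8, 8, 8, 8, 8, 8, 8, 8, 8, 7, 7, 1, 1] [0, 1, 6, 6, 7, 7, 7, 7, 7, 7, 7, 7, 6, 6, 1, 1, 1] [7, 7, 7, 7, 7, 7, 7, 7, 6, 6, 6, 6, 1, 1, 1, 1] (by simp [Nat.ofDigits_cons]) (by simp [Nat.ofDigits_cons]) (by decide)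
    (by decide) (by simp [cs, Nat.ofDigits_cons]) (by decide) (by decide)

theorem g42 : rats 1111666677777777 = 3444444488888889 :=
  conc 1111666677777777 3444444488888889 [7, 7, 7, 7, 7, 7, 7, 7, 6, 6, 6, 6, 1, 1, 1, 1] [8, 8, 8, 8, 3, 4, 4, 4, 4, 4, 4, 4, 9, 8, 8, 8] [9, 8, 8, 8, 8, 8, 8, 8, 4, 4, 4, 4, 4, 4, 4, 3] (by simp [Nat.ofDigits_cons]) (by simp [Nat.ofDigits_cons]) (by decide)
    (by decide) (by simp [cs, Nat.ofDigits_cons]) (by decide) (by decide)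

theorem g43 : rats 3444444488888889 = 12333333333333333 :=
  conc 3444444488888889 12333333333333333 [9, 8, 8, 8, 8, 8, 8, 8, 4, 4, 4, 4, 4, 4, 4, 3] [2, 3, 3, 3, 3, 3, 3, 3, 3, 3, 3, 3, 3, 3, 3, 3, 1] [3, 3, 3, 3, 3, 3, 3, 3, 3, 3, 3, 3, 3, 3, 3, 2, 1] (by simp [Nat.ofDigits_cons]) (by simp [Nat.ofDigits_cons]) (by decide)
    (by decide) (by simp [cs, Nat.ofDigits_cons]) (by decide) (by decide)

theorem g44 : rats 12333333333333333 = 44556666666666666 :=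
  conc 12333333333333333 44556666666666666 [3, 3, 3, 3, 3, 3, 3, 3, 3, 3, 3, 3, 3, 3, 3, 2, 1] [4, 5, 6, 6, 6, 6, 6, 6, 6, 6, 6, 6, 6, 6, 6, 5, 4] [6, 6, 6, 6, 6, 6, 6, 6, 6, 6, 6, 6, 6, 5, 5, 4, 4] (by simp [Nat.ofDigits_cons]) (by simp [Nat.ofDigits_cons]) (by decide)
    (by decide) (by simp [cs, Nat.ofDigits_cons]) (by decide) (by decide)

theorem g45 : rats 44556666666666666 = 11112222333333333 :=
  conc 44556666666666666 11112222333333333 [6, 6, 6, 6, 6, 6, 6, 6, 6, 6, 6, 6, 6, 5, 5, 4, 4] [0, 1, 2, 2, 3, 3, 3, 3, 3, 3, 3, 3, 3, 2, 2, 1, 1, 1] [3, 3, 3, 3, 3, 3, 3, 3, 3, 2, 2, 2, 2, 1, 1, 1, 1] (by simp [Nat.ofDigits_cons]) (by simp [Nat.ofDigits_cons]) (by decide)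
    (by decide) (by simp [cs, Nat.ofDigits_cons]) (by decide) (by decide)

theorem g46 : rats 11112222333333333 = 44444444555555556 :=
  conc 11112222333333333 44444444555555556 [3, 3, 3, 3, 3, 3, 3, 3, 3, 2, 2, 2, 2, 1, 1, 1, 1] [4, 4, 4, 4, 5, 5, 5, 5, 6, 5, 5, 5, 5, 4, 4, 4, 4] [6, 5, 5, 5, 5, 5, 5, 5, 5, 4, 4, 4, 4, 4, 4, 4, 4] (by simp [Nat.ofDigits_cons]) (by simp [Nat.ofDigits_cons]) (by decide)
    (by decide) (by simp [cs, Nat.ofDigits_cons]) (by decide) (by decide)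

theorem g47 : rats 44444444555555556 = 111 :=
  conc 44444444555555556 111 [6, 5, 5, 5, 5, 5, 5, 5, 5, 4, 4, 4, 4, 4, 4, 4, 4] [0, 0, 0, 0, 0, 0, 0, 0, 1, 0, 0, 0, 0, 0, 0, 0, 1, 1] [1, 1, 1] (by simp [Nat.ofDigits_cons]) (by simp [Nat.ofDigits_cons]) (by decide)
    (by decide) (by simp [cs, Nat.ofDigits_cons]) (by decide) (by decide)

theorem o0 : rats 111 = 222 :=
  conc 111 222 [1, 1, 1] [2, 2, 2] [2, 2, 2] (by simp [Nat.ofDigits_cons]) (by simp [Nat.ofDigits_cons]) (by decide)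
    (by decide) (by simp [cs, Nat.ofDigits_cons]) (by decide) (by decide)

theorem o1 : rats 222 = 444 :=
  conc 222 444 [2, 2, 2] [4, 4, 4] [4, 4, 4] (by simp [Nat.ofDigits_cons]) (by simp [Nat.ofDigits_cons]) (by decide)
    (by decide) (by simp [cs, Nat.ofDigits_cons]) (by decide) (by decide)

theorem o2 : rats 444 = 888 :=
  conc 444 888 [4, 4, 4] [8, 8, 8] [8, 8, 8] (by simp [Nat.ofDigits_cons]) (by simp [Nat.ofDigits_cons]) (by decide)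
    (by decide) (by simp [cs, Nat.ofDigits_cons]) (by decide) (by decide)

theorem o3 : rats 888 = 1677 :=
  conc 888 1677 [8, 8, 8] [6, 7, 7, 1] [7, 7, 6, 1] (by simp [Nat.ofDigits_cons]) (by simp [Nat.ofDigits_cons]) (by decide)
    (by decide) (by simp [cs, Nat.ofDigits_cons]) (by decide) (by decide)

theorem o4 : rats 1677 = 3489 :=
  conc 1677 3489 [7, 7, 6, 1] [8, 3, 4, 9] [9, 8, 4, 3] (by simp [Nat.ofDigits_cons]) (by simp [Nat.ofDigits_cons]) (by decide)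
    (by decide) (by simp [cs, Nat.ofDigits_cons]) (by decide) (by decide)

theorem o5 : rats 3489 = 12333 :=
  conc 3489 12333 [9, 8, 4, 3] [2, 3, 3, 3, 1] [3, 3, 3, 2, 1] (by simp [Nat.ofDigits_cons]) (by simp [Nat.ofDigits_cons]) (by decide)
    (by decide) (by simp [cs, Nat.ofDigits_cons]) (by decide) (by decide)

theorem o6 : rats 12333 = 44556 :=
  conc 12333 44556 [3, 3, 3, 2, 1] [4, 5, 6, 5, 4] [6, 5, 5, 4, 4] (by simp [Nat.ofDigits_cons]) (by simp [Nat.ofDigits_cons]) (by decide)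
    (by decide) (by simp [cs, Nat.ofDigits_cons]) (by decide) (by decide)

theorem o7 : rats 44556 = 111 :=
  conc 44556 111 [6, 5, 5, 4, 4] [0, 0, 1, 0, 1, 1] [1, 1, 1] (by simp [Nat.ofDigits_cons]) (by simp [Nat.ofDigits_cons]) (by decide)
    (by decide) (by simp [cs, Nat.ofDigits_cons]) (by decide) (by decide)

theorem q0 : rats 1111111111111111222 = 2222222222222333333 :=
  conc 1111111111111111222 2222222222222333333 [2, 2, 2, 1, 1, 1, 1, 1, 1, 1, 1, 1, 1, 1, 1, 1, 1, 1, 1] [3, 3, 3, 2, 2, 2, 2, 2, 2, 2, 2, 2, 2, 2, 2, 2, 3, 3, 3] [3, 3, 3, 3, 3, 3, 2, 2, 2, 2, 2, 2, 2, 2, 2, 2, 2, 2, 2] (by simp [Nat.ofDigits_cons]) (by simp [Nat.ofDigits_cons]) (by decide)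
    (by decide) (by simp [cs, Nat.ofDigits_cons]) (by decide) (by decide)

theorem q1 : rats 2222222222222333333 = 4444444555555555555 :=
  conc 2222222222222333333 4444444555555555555 [3, 3, 3, 3, 3, 3, 2, 2, 2, 2, 2, 2, 2, 2, 2, 2, 2, 2, 2] [5, 5, 5, 5, 5, 5, 4, 4, 4, 4, 4, 4, 4, 5, 5, 5, 5, 5, 5] [5, 5, 5, 5, 5, 5, 5, 5, 5, 5, 5, 5, 4, 4, 4, 4, 4, 4, 4] (by simp [Nat.ofDigits_cons]) (by simp [Nat.ofDigits_cons]) (by decide)
    (by decide) (by simp [cs, Nat.ofDigits_cons]) (by decide) (by decide)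

theorem q2 : rats 4444444555555555555 = 111119999999 :=
  conc 4444444555555555555 111119999999 [5, 5, 5, 5, 5, 5, 5, 5, 5, 5, 5, 5, 4, 4, 4, 4, 4, 4, 4] [9, 9, 9, 9, 9, 9, 9, 0, 1, 1, 1, 1, 0, 0, 0, 0, 0, 0, 0, 1] [9, 9, 9, 9, 9, 9, 9, 1, 1, 1, 1, 1] (by simp [Nat.ofDigits_cons]) (by simp [Nat.ofDigits_cons]) (by decide)
    (by decide) (by simp [cs, Nat.ofDigits_cons]) (by decide) (by decide)

theorem q3 : rats 111119999999 = 111111111199 :=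
  conc 111119999999 111111111199 [9, 9, 9, 9, 9, 9, 9, 1, 1, 1, 1, 1] [0, 1, 1, 1, 1, 9, 9, 1, 1, 1, 1, 1, 1] [9, 9, 1, 1, 1, 1, 1, 1, 1, 1, 1, 1] (by simp [Nat.ofDigits_cons]) (by simp [Nat.ofDigits_cons]) (by decide)
    (by decide) (by simp [cs, Nat.ofDigits_cons]) (by decide) (by decide)

theorem q4 : rats 111111111199 = 11122222223 :=
  conc 111111111199 11122222223 [9, 9, 1, 1, 1, 1, 1, 1, 1, 1, 1, 1] [0, 1, 3, 2, 2, 2, 2, 2, 2, 2, 0, 1, 1] [3, 2, 2, 2, 2, 2, 2, 2, 1, 1, 1] (by simp [Nat.ofDigits_cons]) (by simp [Nat.ofDigits_cons]) (by decide)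
    (by decide) (by simp [cs, Nat.ofDigits_cons]) (by decide) (by decide)

theorem q5 : rats 11122222223 = 33334444444 :=
  conc 11122222223 33334444444 [3, 2, 2, 2, 2, 2, 2, 2, 1, 1, 1] [4, 3, 3, 4, 4, 4, 4, 4, 3, 3, 4] [4, 4, 4, 4, 4, 4, 4, 3, 3, 3, 3] (by simp [Nat.ofDigits_cons]) (by simp [Nat.ofDigits_cons]) (by decide)
    (by decide) (by simp [cs, Nat.ofDigits_cons]) (by decide) (by decide)

theorem q6 : rats 33334444444 = 77777777888 :=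
  conc 33334444444 77777777888 [4, 4, 4, 4, 4, 4, 4, 3, 3, 3, 3] [7, 7, 7, 7, 8, 8, 8, 7, 7, 7, 7] [8, 8, 8, 7, 7, 7, 7, 7, 7, 7, 7] (by simp [Nat.ofDigits_cons]) (by simp [Nat.ofDigits_cons]) (by decide)
    (by decide) (by simp [cs, Nat.ofDigits_cons]) (by decide) (by decide)

theorem q7 : rats 77777777888 = 155555566666 :=
  conc 77777777888 155555566666 [8, 8, 8, 7, 7, 7, 7, 7, 7, 7, 7] [5, 6, 6, 5, 5, 5, 5, 5, 6, 6, 6, 1] [6, 6, 6, 6, 6, 5, 5, 5, 5, 5, 5, 1] (by simp [Nat.ofDigits_cons]) (by simp [Nat.ofDigits_cons]) (by decide)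
    (by decide) (by simp [cs, Nat.ofDigits_cons]) (by decide) (by decide)

theorem q8 : rats 155555566666 = 111222222278 :=
  conc 155555566666 111222222278 [6, 6, 6, 6, 6, 5, 5, 5, 5, 5, 5, 1] [7, 1, 2, 2, 2, 1, 1, 2, 2, 2, 2, 8] [8, 7, 2, 2, 2, 2, 2, 2, 2, 1, 1, 1] (by simp [Nat.ofDigits_cons]) (by simp [Nat.ofDigits_cons]) (by decide)
    (by decide) (by simp [cs, Nat.ofDigits_cons]) (by decide) (by decide)

theorem q9 : rats 111222222278 = 334444448899 :=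
  conc 111222222278 334444448899 [8, 7, 2, 2, 2, 2, 2, 2, 2, 1, 1, 1] [9, 8, 3, 4, 4, 4, 4, 4, 4, 3, 8, 9] [9, 9, 8, 8, 4, 4, 4, 4, 4, 4, 3, 3] (by simp [Nat.ofDigits_cons]) (by simp [Nat.ofDigits_cons]) (by decide)
    (by decide) (by simp [cs, Nat.ofDigits_cons]) (by decide) (by decide)

theorem q10 : rats 334444448899 = 1223333338889 :=
  conc 334444448899 1223333338889 [9, 9, 8, 8, 4, 4, 4, 4, 4, 4, 3, 3] [2, 3, 3, 3, 9, 8, 8, 8, 2, 3, 3, 3, 1] [9, 8, 8, 8, 3, 3, 3, 3, 3, 3, 2, 2, 1] (by simp [Nat.ofDigits_cons]) (by simp [Nat.ofDigits_cons]) (by decide)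
    (by decide) (by simp [cs, Nat.ofDigits_cons]) (by decide) (by decide)

theorem q11 : rats 1223333338889 = 1111111266667 :=
  conc 1223333338889 1111111266667 [9, 8, 8, 8, 3, 3, 3, 3, 3, 3, 2, 2, 1] [0, 1, 1, 2, 7, 6, 6, 6, 6, 1, 1, 1, 1, 1] [7, 6, 6, 6, 6, 2, 1, 1, 1, 1, 1, 1, 1] (by simp [Nat.ofDigits_cons]) (by simp [Nat.ofDigits_cons]) (by decide)
    (by decide) (by simp [cs, Nat.ofDigits_cons]) (by decide) (by decide)

theorem q12 : rats 1111111266667 = 2337777777788 :=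
  conc 1111111266667 2337777777788 [7, 6, 6, 6, 6, 2, 1, 1, 1, 1, 1, 1, 1] [8, 7, 7, 7, 7, 3, 2, 3, 7, 7, 7, 7, 8] [8, 8, 7, 7, 7, 7, 7, 7, 7, 7, 3, 3, 2] (by simp [Nat.ofDigits_cons]) (by simp [Nat.ofDigits_cons]) (by decide)
    (by decide) (by simp [cs, Nat.ofDigits_cons]) (by decide) (by decide)

theorem q13 : rats 2337777777788 = 1111225555555 :=
  conc 2337777777788 1111225555555 [8, 8, 7, 7, 7, 7, 7, 7, 7, 7, 3, 3, 2] [0, 2, 1, 5, 5, 5, 5, 5, 5, 5, 1, 2, 1, 1] [5, 5, 5, 5, 5, 5, 5, 2, 2, 1, 1, 1, 1] (by simp [Nat.ofDigits_cons]) (by simp [Nat.ofDigits_cons]) (by decide)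
    (by decide) (by simp [cs, Nat.ofDigits_cons]) (by decide) (by decide)

theorem q14 : rats 1111225555555 = 666666667778 :=
  conc 1111225555555 666666667778 [5, 5, 5, 5, 5, 5, 5, 2, 2, 1, 1, 1, 1] [6, 6, 6, 6, 7, 7, 0, 8, 7, 6, 6, 6, 6] [8, 7, 7, 7, 6, 6, 6, 6, 6, 6, 6, 6] (by simp [Nat.ofDigits_cons]) (by simp [Nat.ofDigits_cons]) (by decide)
    (by decide) (by simp [cs, Nat.ofDigits_cons]) (by decide) (by decide)

theorem q15 : rats 666666667778 = 1333344444445 :=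
  conc 666666667778 1333344444445 [8, 7, 7, 7, 6, 6, 6, 6, 6, 6, 6, 6] [4, 4, 4, 4, 3, 3, 3, 3, 4, 4, 4, 5, 1] [5, 4, 4, 4, 4, 4, 4, 4, 3, 3, 3, 3, 1] (by simp [Nat.ofDigits_cons]) (by simp [Nat.ofDigits_cons]) (by decide)
    (by decide) (by simp [cs, Nat.ofDigits_cons]) (by decide) (by decide)

theorem q16 : rats 1333344444445 = 6677777777888 :=
  conc 1333344444445 6677777777888 [5, 4, 4, 4, 4, 4, 4, 4, 3, 3, 3, 3, 1] [6, 7, 7, 7, 7, 8, 8, 8, 7, 7, 7, 7, 6] [8, 8, 8, 7, 7, 7, 7, 7, 7, 7, 7, 6, 6] (by simp [Nat.ofDigits_cons]) (by simp [Nat.ofDigits_cons]) (by decide)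
    (by decide) (by simp [cs, Nat.ofDigits_cons]) (by decide) (by decide)

theorem q17 : rats 6677777777888 = 14555555555566 :=
  conc 6677777777888 14555555555566 [8, 8, 8, 7, 7, 7, 7, 7, 7, 7, 7, 6, 6] [4, 5, 6, 5, 5, 5, 5, 5, 5, 5, 6, 5, 5, 1] [6, 6, 5, 5, 5, 5, 5, 5, 5, 5, 5, 5, 4, 1] (by simp [Nat.ofDigits_cons]) (by simp [Nat.ofDigits_cons]) (by decide)
    (by decide) (by simp [cs, Nat.ofDigits_cons]) (by decide) (by decide)

theorem q18 : rats 14555555555566 = 1111111111178 :=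
  conc 14555555555566 1111111111178 [6, 6, 5, 5, 5, 5, 5, 5, 5, 5, 5, 5, 4, 1] [7, 0, 1, 1, 1, 1, 1, 1, 1, 1, 1, 1, 1, 8] [8, 7, 1, 1, 1, 1, 1, 1, 1, 1, 1, 1, 1] (by simp [Nat.ofDigits_cons]) (by simp [Nat.ofDigits_cons]) (by decide)
    (by decide) (by simp [cs, Nat.ofDigits_cons]) (by decide) (by decide)

theorem q19 : rats 1111111111178 = 2222222228899 :=
  conc 1111111111178 2222222228899 [8, 7, 1, 1, 1, 1, 1, 1, 1, 1, 1, 1, 1] [9, 8, 2, 2, 2, 2, 2, 2, 2, 2, 2, 8, 9] [9, 9, 8, 8, 2, 2, 2, 2, 2, 2, 2, 2, 2] (by simp [Nat.ofDigits_cons]) (by simp [Nat.ofDigits_cons]) (by decide)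
    (by decide) (by simp [cs, Nat.ofDigits_cons]) (by decide) (by decide)

theorem q20 : rats 2222222228899 = 1111122244445 :=
  conc 2222222228899 1111122244445 [9, 9, 8, 8, 2, 2, 2, 2, 2, 2, 2, 2, 2] [1, 2, 1, 1, 5, 4, 4, 4, 4, 0, 1, 2, 2, 1] [5, 4, 4, 4, 4, 2, 2, 2, 1, 1, 1, 1, 1] (by simp [Nat.ofDigits_cons]) (by simp [Nat.ofDigits_cons]) (by decide)
    (by decide) (by simp [cs, Nat.ofDigits_cons]) (by decide) (by decide)

theorem q21 : rats 1111122244445 = 4445555555566 :=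
  conc 1111122244445 4445555555566 [5, 4, 4, 4, 4, 2, 2, 2, 1, 1, 1, 1, 1] [6, 5, 5, 5, 5, 4, 4, 4, 5, 5, 5, 5, 6] [6, 6, 5, 5, 5, 5, 5, 5, 5, 5, 4, 4, 4] (by simp [Nat.ofDigits_cons]) (by simp [Nat.ofDigits_cons]) (by decide)
    (by decide) (by simp [cs, Nat.ofDigits_cons]) (by decide) (by decide)

theorem q22 : rats 4445555555566 = 11111111111 :=
  conc 4445555555566 11111111111 [6, 6, 5, 5, 5, 5, 5, 5, 5, 5, 4, 4, 4] [0, 1, 0, 1, 1, 1, 1, 1, 1, 1, 0, 1, 1, 1] [1, 1, 1, 1, 1, 1, 1, 1, 1, 1, 1] (by simp [Nat.ofDigits_cons]) (by simp [Nat.ofDigits_cons]) (by decide)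
    (by decide) (by simp [cs, Nat.ofDigits_cons]) (by decide) (by decide)

theorem q23 : rats 11111111111 = 22222222222 :=
  conc 11111111111 22222222222 [1, 1, 1, 1, 1, 1, 1, 1, 1, 1, 1] [2, 2, 2, 2, 2, 2, 2, 2, 2, 2, 2] [2, 2, 2, 2, 2, 2, 2, 2, 2, 2, 2] (by simp [Nat.ofDigits_cons]) (by simp [Nat.ofDigits_cons]) (by decide)
    (by decide) (by simp [cs, Nat.ofDigits_cons]) (by decide) (by decide)

theorem q24 : rats 22222222222 = 44444444444 :=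
  conc 22222222222 44444444444 [2, 2, 2, 2, 2, 2, 2, 2, 2, 2, 2] [4, 4, 4, 4, 4, 4, 4, 4, 4, 4, 4] [4, 4, 4, 4, 4, 4, 4, 4, 4, 4, 4] (by simp [Nat.ofDigits_cons]) (by simp [Nat.ofDigits_cons]) (by decide)
    (by decide) (by simp [cs, Nat.ofDigits_cons]) (by decide) (by decide)

theorem q25 : rats 44444444444 = 88888888888 :=
  conc 44444444444 88888888888 [4, 4, 4, 4, 4, 4, 4, 4, 4, 4, 4] [8, 8, 8, 8, 8, 8, 8, 8, 8, 8, 8] [8, 8, 8, 8, 8, 8, 8, 8, 8, 8, 8] (by simp [Nat.ofDigits_cons]) (by simp [Nat.ofDigits_cons]) (by decide)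
    (by decide) (by simp [cs, Nat.ofDigits_cons]) (by decide) (by decide)

theorem q26 : rats 88888888888 = 167777777777 :=
  conc 88888888888 167777777777 [8, 8, 8, 8, 8, 8, 8, 8, 8, 8, 8] [6, 7, 7, 7, 7, 7, 7, 7, 7, 7, 7, 1] [7, 7, 7, 7, 7, 7, 7, 7, 7, 7, 6, 1] (by simp [Nat.ofDigits_cons]) (by simp [Nat.ofDigits_cons]) (by decide)
    (by decide) (by simp [cs, Nat.ofDigits_cons]) (by decide) (by decide)

theorem q27 : rats 167777777777 = 345555555589 :=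
  conc 167777777777 345555555589 [7, 7, 7, 7, 7, 7, 7, 7, 7, 7, 6, 1] [8, 3, 5, 5, 5, 5, 5, 5, 5, 5, 4, 9] [9, 8, 5, 5, 5, 5, 5, 5, 5, 5, 4, 3] (by simp [Nat.ofDigits_cons]) (by simp [Nat.ofDigits_cons]) (by decide)
    (by decide) (by simp [cs, Nat.ofDigits_cons]) (by decide) (by decide)

theorem q28 : rats 345555555589 = 1111111112333 :=
  conc 345555555589 1111111112333 [9, 8, 5, 5, 5, 5, 5, 5, 5, 5, 4, 3] [2, 3, 1, 1, 1, 1, 1, 1, 1, 1, 3, 3, 1] [3, 3, 3, 2, 1, 1, 1, 1, 1, 1, 1, 1, 1] (by simp [Nat.ofDigits_cons]) (by simp [Nat.ofDigits_cons]) (by decide)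
    (by decide) (by simp [cs, Nat.ofDigits_cons]) (by decide) (by decide)

theorem q29 : rats 1111111112333 = 2222233444444 :=
  conc 1111111112333 2222233444444 [3, 3, 3, 2, 1, 1, 1, 1, 1, 1, 1, 1, 1] [4, 4, 4, 3, 2, 2, 2, 2, 2, 3, 4, 4, 4] [4, 4, 4, 4, 4, 4, 3, 3, 2, 2, 2, 2, 2] (by simp [Nat.ofDigits_cons]) (by simp [Nat.ofDigits_cons]) (by decide)
    (by decide) (by simp [cs, Nat.ofDigits_cons]) (by decide) (by decide)

theorem q30 : rats 2222233444444 = 6666666666677 :=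
  conc 2222233444444 6666666666677 [4, 4, 4, 4, 4, 4, 3, 3, 2, 2, 2, 2, 2] [6, 6, 6, 6, 6, 7, 6, 7, 6, 6, 6, 6, 6] [7, 7, 6, 6, 6, 6, 6, 6, 6, 6, 6, 6, 6] (by simp [Nat.ofDigits_cons]) (by simp [Nat.ofDigits_cons]) (by decide)
    (by decide) (by simp [cs, Nat.ofDigits_cons]) (by decide) (by decide)

theorem q31 : rats 6666666666677 = 13333333333444 :=
  conc 6666666666677 13333333333444 [7, 7, 6, 6, 6, 6, 6, 6, 6, 6, 6, 6, 6] [3, 4, 3, 3, 3, 3, 3, 3, 3, 3, 3, 4, 4, 1] [4, 4, 4, 3, 3, 3, 3, 3, 3, 3, 3, 3, 3, 1] (by simp [Nat.ofDigits_cons]) (by simp [Nat.ofDigits_cons]) (by decide)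
    (by decide) (by simp [cs, Nat.ofDigits_cons]) (by decide) (by decide)

theorem q32 : rats 13333333333444 = 55666666667777 :=
  conc 13333333333444 55666666667777 [4, 4, 4, 3, 3, 3, 3, 3, 3, 3, 3, 3, 3, 1] [5, 7, 7, 6, 6, 6, 6, 6, 6, 6, 6, 7, 7, 5] [7, 7, 7, 7, 6, 6, 6, 6, 6, 6, 6, 6, 5, 5] (by simp [Nat.ofDigits_cons]) (by simp [Nat.ofDigits_cons]) (by decide)
    (by decide) (by simp [cs, Nat.ofDigits_cons]) (by decide) (by decide)

theorem q33 : rats 55666666667777 = 123333333334444 :=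
  conc 55666666667777 123333333334444 [7, 7, 7, 7, 6, 6, 6, 6, 6, 6, 6, 6, 5, 5] [2, 3, 4, 4, 3, 3, 3, 3, 3, 3, 4, 4, 3, 3, 1] [4, 4, 4, 4, 3, 3, 3, 3, 3, 3, 3, 3, 3, 2, 1] (by simp [Nat.ofDigits_cons]) (by simp [Nat.ofDigits_cons]) (by decide)
    (by decide) (by simp [cs, Nat.ofDigits_cons]) (by decide) (by decide)

theorem cyc111 : rats^[8] 111 = 111 := by
  simp only [Function.iterate_succ_apply, Function.iterate_zero_apply, o0, o1, o2, o3, o4, o5, o6, o7]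

theorem start4 : rats^[48] (Fw 4) = 111 := by
  have e : Fw 4 = 111111222 := by
    simp [Fw, tw, replicate_succ, Nat.ofDigits_cons]
  rw [e]
  simp only [Function.iterate_succ_apply, Function.iterate_zero_apply, g0, g1, g2, g3, g4, g5, g6, g7, g8, g9, g10, g11, g12, g13, g14, g15, g16, g17, g18, g19, g20, g21, g22, g23, g24, g25, g26, g27, g28, g29, g30, g31, g32, g33, g34, g35, g36, g37, g38, g39, g40, g41, g42, g43, g44, g45, g46, g47]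

theorem start14 : Trib (Fw 14) := by
  have e : Fw 14 = 1111111111111111222 := by
    simp [Fw, tw, replicate_succ, Nat.ofDigits_cons]
  rw [e]
  refine ⟨34, 9, by norm_num, ?_⟩
  simp only [Function.iterate_succ_apply, Function.iterate_zero_apply, q0, q1, q2, q3, q4, q5, q6, q7, q8, q9, q10, q11, q12, q13, q14, q15, q16, q17, q18, q19, q20, q21, q22, q23, q24, q25, q26, q27, q28, q29, q30, q31, q32, q33]
  simp [bA, replicate_succ, Nat.ofDigits_cons]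

end Pool.RATC
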