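import Pool.Agent.H19.RATC.Uni3

/-!
# RATS (MP_a315fd): a positive proportion of the integers have a term at most `n ^ δ`
-/

set_option autoImplicit false

namespace Pool.RATC

open List Pool.RAT

theorem posprop {δ : ℝ} (hδ : 0 < δ) : ∃ c : ℝ, 0 < c ∧ ∃ N1 : ℕ, ∀ N : ℕ, N1 ≤ N →
    c * N ≤ ((DS δ N).ncard : ℝ) := by
  classical
  obtain ⟨c, hc, N0, h⟩ := densityU
  obtain ⟨d, hd⟩ : ∃ d : ℝ, d = min c (δ / 36) := ⟨_, rfl⟩
  have hd0 : 0 < d := by rw [hd]; exact lt_min hc (by positivity)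
  have hd1 : d ≤ c := by rw [hd]; exact min_le_left _ _
  have hd2 : d ≤ δ / 36 := by rw [hd]; exact min_le_right _ _
  obtain ⟨q, hq⟩ : ∃ q : ℝ, q = 8 / (c * d) := ⟨_, rfl⟩
  have hq0 : 0 < q := by rw [hq]; positivity
  obtain ⟨Q, hQ⟩ : ∃ Q : ℕ, Q = ⌈q⌉₊ + 1 := ⟨_, rfl⟩
  have hQq : q ≤ Q := by
    rw [hQ]
    have := Nat.le_ceil q
    push_cast
    linarith
  obtain ⟨N2, hN2⟩ : ∃ N2 : ℕ, N2 = ⌈Real.exp (180 / δ)⌉₊ := ⟨_, rfl⟩
  refine ⟨c * d / 4, by positivity, max (max N0 2) (max (Q * Q) N2), fun N hN => ?_⟩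
  have g0 : N0 ≤ N := le_trans (le_trans (le_max_left _ _) (le_max_left _ _)) hN
  have g1 : 2 ≤ N := le_trans (le_trans (le_max_right _ _) (le_max_left _ _)) hN
  have g2 : Q * Q ≤ N := le_trans (le_trans (le_max_left _ _) (le_max_right _ _)) hN
  have g3 : N2 ≤ N := le_trans (le_trans (le_max_right _ _) (le_max_right _ _)) hN
  have hNr : (2 : ℝ) ≤ N := by exact_mod_cast g1
  obtain ⟨l, hl⟩ : ∃ l : ℝ, l = Real.log N := ⟨_, rfl⟩
  have hl0 : 0 < l := by rw [hl]; exact Real.log_pos (by linarith)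
  have hl1 : 45 ≤ δ / 4 * l := by
    have h1 : Real.exp (180 / δ) ≤ N := by
      refine (Nat.le_ceil _).trans ?_
      rw [← hN2]
      exact_mod_cast g3
    have h2 : 180 / δ ≤ l := by
      rw [hl, Real.le_log_iff_exp_le (by linarith)]
      exact h1
    have h3 : δ / 4 * (180 / δ) ≤ δ / 4 * l := mul_le_mul_of_nonneg_left h2 (by positivity)
    have h4 : δ / 4 * (180 / δ) = 45 := by field_simp; norm_num
    linarith
  obtain ⟨K, hK⟩ := h N g0
  obtain ⟨I, hI⟩ : ∃ I : ℕ, I = ⌊d * l / 2⌋₊ := ⟨_, rfl⟩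
  have hI1 : (I : ℝ) ≤ d * l / 2 := by rw [hI]; exact Nat.floor_le (by positivity)
  have hI2 : d * l / 2 ≤ (I : ℝ) + 1 := by rw [hI]; exact (Nat.lt_floor_add_one _).le
  -- the sets
  have ht : ∀ i ∈ Finset.range (I + 1), ((2 * i : ℕ) : ℝ) ≤ d * l := by
    intro i hi
    have h1 : i ≤ I := by rw [Finset.mem_range] at hi; omega
    have h2 : (i : ℝ) ≤ I := by exact_mod_cast h1
    push_cast
    linarith
  have hcard : ∀ i ∈ Finset.range (I + 1), c * N / l ≤
      (((US_fin (K 0) (2 * i) N).toFinset.card : ℕ) : ℝ) := by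
    intro i hi
    have h1 := hK (2 * i) (by
      rw [← hl]
      exact (ht i hi).trans (mul_le_mul_of_nonneg_right hd1 hl0.le))
    rw [show 2 * i % 2 = 0 by omega, Set.ncard_eq_toFinset_card _ (US_fin _ _ _), ← hl] at h1
    exact h1
  obtain ⟨W, hW⟩ : ∃ W : Finset ℕ, W = (Finset.range (I + 1)).biUnion
      (fun i => (US_fin (K 0) (2 * i) N).toFinset) := ⟨_, rfl⟩
  have hWc : W.card = ∑ i ∈ Finset.range (I + 1), (US_fin (K 0) (2 * i) N).toFinset.card := by
    rw [hW]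
    apply Finset.card_biUnion
    intro i _ j _ hij
    rw [Function.onFun, Finset.disjoint_left]
    intro n h1 h2
    rw [Set.Finite.mem_toFinset] at h1 h2
    apply hij
    have := Fw_inj (h1.2.2.symm.trans h2.2.2)
    omega
  have hWr : c * d / 2 * N ≤ (W.card : ℝ) := by
    have h1 : ∑ i ∈ Finset.range (I + 1), c * N / l ≤ (W.card : ℝ) := by
      rw [hWc]
      push_cast
      exact Finset.sum_le_sum hcard
    rw [Finset.sum_const, Finset.card_range, nsmul_eq_mul] at h1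
    push_cast at h1
    have h2 : d * l / 2 * (c * N / l) ≤ ((I : ℝ) + 1) * (c * N / l) :=
      mul_le_mul_of_nonneg_right hI2 (by positivity)
    have h3 : d * l / 2 * (c * N / l) = c * d / 2 * N := by field_simp
    linarith
  have hsub : W ⊆ (DS_fin δ N).toFinset ∪ Finset.range (Nat.sqrt N + 1) := by
    intro n hn
    rw [hW, Finset.mem_biUnion] at hn
    obtain ⟨i, hi, hni⟩ := hn
    rw [Set.Finite.mem_toFinset] at hni
    rw [Finset.mem_union, Set.Finite.mem_toFinset, Finset.mem_range]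
    by_cases hnn : N ≤ n * n
    · left
      apply in_DS hδ (by omega) hni hnn
      rw [← hl]
      have h1 := ht i hi
      have h2 : d * l ≤ δ / 36 * l := mul_le_mul_of_nonneg_right hd2 hl0.le
      linarith
    · right
      have : n ≤ Nat.sqrt N := by
        rw [Nat.le_sqrt]
        omega
      omega
  have hc1 := (Finset.card_le_card hsub).trans (Finset.card_union_le _ _)
  rw [Finset.card_range, ← Set.ncard_eq_toFinset_card _ (DS_fin δ N)] at hc1
  obtain ⟨r, hr⟩ : ∃ r, r = Nat.sqrt N := ⟨_, rfl⟩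
  rw [← hr] at hc1
  have hrr : r * r ≤ N := by rw [hr]; exact Nat.sqrt_le N
  have hrQ : Q ≤ r := by rw [hr, Nat.le_sqrt]; exact g2
  have hrq : q ≤ r := hQq.trans (by exact_mod_cast hrQ)
  have hr1 : (1 : ℝ) ≤ r := by
    have : 1 ≤ r := by omega
    exact_mod_cast this
  have hrr' : (r : ℝ) * r ≤ N := by exact_mod_cast hrr
  have h1 : q * r ≤ N := le_trans (mul_le_mul_of_nonneg_right hrq (by linarith)) hrr'
  have h2 : q * 1 ≤ N := le_trans (mul_le_mul_of_nonneg_left hr1 hq0.le) h1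
  have h3 : (r : ℝ) ≤ c * d / 8 * N := by
    have h4 : c * d / 8 * (q * r) ≤ c * d / 8 * N := mul_le_mul_of_nonneg_left h1 (by positivity)
    have h5 : c * d / 8 * (q * r) = r := by rw [hq]; field_simp
    linarith
  have h6 : (1 : ℝ) ≤ c * d / 8 * N := by
    have h4 : c * d / 8 * (q * 1) ≤ c * d / 8 * N := mul_le_mul_of_nonneg_left h2 (by positivity)
    have h5 : c * d / 8 * (q * 1) = 1 := by rw [hq]; field_simp
    linarith
  have h7 : (W.card : ℝ) ≤ ((DS δ N).ncard : ℝ) + (r + 1) := by exact_mod_cast hc1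
  linarith

end Pool.RATC
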