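import Pool.Agent.H19.RATC.Uni3

/-!
# RATS (MP_a315fd): a positive proportion of the integers have a term `1^(t+2) 222`, `t ≤ δ log N`
-/

set_option autoImplicit false

namespace Pool.RATC

open List Pool.RAT

/-- the numbers up to `N` with a term `1^(t+2) 222`, `t ≤ δ log N` -/
def TD (δ : ℝ) (N : ℕ) : Set ℕ :=
  {n | 1 ≤ n ∧ n ≤ N ∧ ∃ k t : ℕ, (t : ℝ) ≤ δ * Real.log N ∧ rats^[k] n = Fw t}

theorem TD_fin (δ : ℝ) (N : ℕ) : (TD δ N).Finite := (Set.finite_Iic N).subset (fun _ h => h.2.1)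

theorem posT {δ : ℝ} (hδ : 0 < δ) : ∃ c : ℝ, 0 < c ∧ ∃ N1 : ℕ, ∀ N : ℕ, N1 ≤ N →
    c * N ≤ ((TD δ N).ncard : ℝ) := by
  classical
  obtain ⟨c, hc, N0, h⟩ := densityU
  obtain ⟨d, hd⟩ : ∃ d : ℝ, d = min c δ := ⟨_, rfl⟩
  have hd0 : 0 < d := by rw [hd]; exact lt_min hc hδ
  have hd1 : d ≤ c := by rw [hd]; exact min_le_left _ _
  have hd2 : d ≤ δ := by rw [hd]; exact min_le_right _ _
  refine ⟨c * d / 2, by positivity, max N0 2, fun N hN => ?_⟩
  have g0 : N0 ≤ N := le_trans (le_max_left _ _) hN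
  have g1 : 2 ≤ N := le_trans (le_max_right _ _) hN
  have hNr : (2 : ℝ) ≤ N := by exact_mod_cast g1
  obtain ⟨l, hl⟩ : ∃ l : ℝ, l = Real.log N := ⟨_, rfl⟩
  have hl0 : 0 < l := by rw [hl]; exact Real.log_pos (by linarith)
  obtain ⟨K, hK⟩ := h N g0
  obtain ⟨I, hI⟩ : ∃ I : ℕ, I = ⌊d * l / 2⌋₊ := ⟨_, rfl⟩
  have hI1 : (I : ℝ) ≤ d * l / 2 := by rw [hI]; exact Nat.floor_le (by positivity)
  have hI2 : d * l / 2 ≤ (I : ℝ) + 1 := by rw [hI]; exact (Nat.lt_floor_add_one _).le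
  have ht : ∀ i ∈ Finset.range (I + 1), ((2 * i : ℕ) : ℝ) ≤ d * l := by
    intro i hi
    have h1 : i ≤ I := by rw [Finset.mem_range] at hi; omega
    have h2 : (i : ℝ) ≤ I := by exact_mod_cast h1
    push_cast
    linarith
  have hcard : ∀ i ∈ Finset.range (I + 1), c * N / l ≤
      (((US_fin (K 0) (2 * i) N).toFinset.card : ℕ) : ℝ) := by
    intro i hi
    have h1 := hK (2 * i) (by
      rw [← hl]
      exact (ht i hi).trans (mul_le_mul_of_nonneg_right hd1 hl0.le))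
    rw [show 2 * i % 2 = 0 by omega, Set.ncard_eq_toFinset_card _ (US_fin _ _ _), ← hl] at h1
    exact h1
  obtain ⟨W, hW⟩ : ∃ W : Finset ℕ, W = (Finset.range (I + 1)).biUnion
      (fun i => (US_fin (K 0) (2 * i) N).toFinset) := ⟨_, rfl⟩
  have hWc : W.card = ∑ i ∈ Finset.range (I + 1), (US_fin (K 0) (2 * i) N).toFinset.card := by
    rw [hW]
    apply Finset.card_biUnion
    intro i _ j _ hij
    rw [Function.onFun, Finset.disjoint_left]
    intro n h1 h2
    rw [Set.Finite.mem_toFinset] at h1 h2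
    apply hij
    have := Fw_inj (h1.2.2.symm.trans h2.2.2)
    omega
  have hWr : c * d / 2 * N ≤ (W.card : ℝ) := by
    have h1 : ∑ i ∈ Finset.range (I + 1), c * N / l ≤ (W.card : ℝ) := by
      rw [hWc]
      push_cast
      exact Finset.sum_le_sum hcard
    rw [Finset.sum_const, Finset.card_range, nsmul_eq_mul] at h1
    push_cast at h1
    have h2 : d * l / 2 * (c * N / l) ≤ ((I : ℝ) + 1) * (c * N / l) :=
      mul_le_mul_of_nonneg_right hI2 (by positivity)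
    have h3 : d * l / 2 * (c * N / l) = c * d / 2 * N := by field_simp
    linarith
  have hsub : W ⊆ (TD_fin δ N).toFinset := by
    intro n hn
    rw [hW, Finset.mem_biUnion] at hn
    obtain ⟨i, hi, hni⟩ := hn
    rw [Set.Finite.mem_toFinset] at hni
    rw [Set.Finite.mem_toFinset]
    refine ⟨hni.1, hni.2.1, K 0, 2 * i, ?_, hni.2.2⟩
    rw [← hl]
    exact (ht i hi).trans (mul_le_mul_of_nonneg_right hd2 hl0.le)
  have hc1 := Finset.card_le_card hsub
  rw [← Set.ncard_eq_toFinset_card _ (TD_fin δ N)] at hc1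
  have h7 : (W.card : ℝ) ≤ ((TD δ N).ncard : ℝ) := by exact_mod_cast hc1
  linarith

end Pool.RATC
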