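import Pool.Agent.H19.RATC.Cyc

/-!
# RATS (MP_a315fd): from `111222` to `117`
-/

set_option autoImplicit false

namespace Pool.RATC

open List Pool.RAT

theorem conc (x y : ℕ) (l D m : List ℕ) (hx : x = Nat.ofDigits 10 l) (hy : y = Nat.ofDigits 10 m)
    (hl : St l) (hD : ∀ d ∈ D, d < 10)
    (he : Nat.ofDigits 10 (cs l) = Nat.ofDigits 10 D) (hm : St m)
    (hc : (D.filter (fun d => decide (0 < d))).Perm m) : rats x = y := by
  rw [hx, hy, rats_st hl, he, nz_digits hD]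
  congr 1
  exact sort_eq hc hm.1

theorem e0 : rats 111222 = 333333 :=
  conc 111222 333333 [2, 2, 2, 1, 1, 1] [3, 3, 3, 3, 3, 3] [3, 3, 3, 3, 3, 3] (by simp [Nat.ofDigits_cons]) (by simp [Nat.ofDigits_cons]) (by decide)
    (by decide) (by simp [cs, Nat.ofDigits_cons]) (by decide) (by decide)

theorem e1 : rats 333333 = 666666 :=
  conc 333333 666666 [3, 3, 3, 3, 3, 3] [6, 6, 6, 6, 6, 6] [6, 6, 6, 6, 6, 6] (by simp [Nat.ofDigits_cons]) (by simp [Nat.ofDigits_cons]) (by decide)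
    (by decide) (by simp [cs, Nat.ofDigits_cons]) (by decide) (by decide)

theorem e2 : rats 666666 = 1233333 :=
  conc 666666 1233333 [6, 6, 6, 6, 6, 6] [2, 3, 3, 3, 3, 3, 1] [3, 3, 3, 3, 3, 2, 1] (by simp [Nat.ofDigits_cons]) (by simp [Nat.ofDigits_cons]) (by decide)
    (by decide) (by simp [cs, Nat.ofDigits_cons]) (by decide) (by decide)

theorem e3 : rats 1233333 = 4455666 :=
  conc 1233333 4455666 [3, 3, 3, 3, 3, 2, 1] [4, 5, 6, 6, 6, 5, 4] [6, 6, 6, 5, 5, 4, 4] (by simp [Nat.ofDigits_cons]) (by simp [Nat.ofDigits_cons]) (by decide)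
    (by decide) (by simp [cs, Nat.ofDigits_cons]) (by decide) (by decide)

theorem e4 : rats 4455666 = 1111122 :=
  conc 4455666 1111122 [6, 6, 6, 5, 5, 4, 4] [0, 1, 2, 1, 2, 1, 1, 1] [2, 2, 1, 1, 1, 1, 1] (by simp [Nat.ofDigits_cons]) (by simp [Nat.ofDigits_cons]) (by decide)
    (by decide) (by simp [cs, Nat.ofDigits_cons]) (by decide) (by decide)

theorem e5 : rats 1111122 = 2223333 :=
  conc 1111122 2223333 [2, 2, 1, 1, 1, 1, 1] [3, 3, 2, 2, 2, 3, 3] [3, 3, 3, 3, 2, 2, 2] (by simp [Nat.ofDigits_cons]) (by simp [Nat.ofDigits_cons]) (by decide)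
    (by decide) (by simp [cs, Nat.ofDigits_cons]) (by decide) (by decide)

theorem e6 : rats 2223333 = 5555556 :=
  conc 2223333 5555556 [3, 3, 3, 3, 2, 2, 2] [5, 5, 5, 6, 5, 5, 5] [6, 5, 5, 5, 5, 5, 5] (by simp [Nat.ofDigits_cons]) (by simp [Nat.ofDigits_cons]) (by decide)
    (by decide) (by simp [cs, Nat.ofDigits_cons]) (by decide) (by decide)

theorem e7 : rats 5555556 = 11111112 :=
  conc 5555556 11111112 [6, 5, 5, 5, 5, 5, 5] [1, 1, 1, 1, 1, 1, 2, 1] [2, 1, 1, 1, 1, 1, 1, 1] (by simp [Nat.ofDigits_cons]) (by simp [Nat.ofDigits_cons]) (by decide)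
    (by decide) (by simp [cs, Nat.ofDigits_cons]) (by decide) (by decide)

theorem e8 : rats 11111112 = 22222233 :=
  conc 11111112 22222233 [2, 1, 1, 1, 1, 1, 1, 1] [3, 2, 2, 2, 2, 2, 2, 3] [3, 3, 2, 2, 2, 2, 2, 2] (by simp [Nat.ofDigits_cons]) (by simp [Nat.ofDigits_cons]) (by decide)
    (by decide) (by simp [cs, Nat.ofDigits_cons]) (by decide) (by decide)

theorem e9 : rats 22222233 = 44445555 :=
  conc 22222233 44445555 [3, 3, 2, 2, 2, 2, 2, 2] [5, 5, 4, 4, 4, 4, 5, 5] [5, 5, 5, 5, 4, 4, 4, 4] (by simp [Nat.ofDigits_cons]) (by simp [Nat.ofDigits_cons]) (by decide)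
    (by decide) (by simp [cs, Nat.ofDigits_cons]) (by decide) (by decide)

theorem e10 : rats 44445555 = 99999999 :=
  conc 44445555 99999999 [5, 5, 5, 5, 4, 4, 4, 4] [9, 9, 9, 9, 9, 9, 9, 9] [9, 9, 9, 9, 9, 9, 9, 9] (by simp [Nat.ofDigits_cons]) (by simp [Nat.ofDigits_cons]) (by decide)
    (by decide) (by simp [cs, Nat.ofDigits_cons]) (by decide) (by decide)

theorem e11 : rats 99999999 = 189999999 :=
  conc 99999999 189999999 [9, 9, 9, 9, 9, 9, 9, 9] [8, 9, 9, 9, 9, 9, 9, 9, 1] [9, 9, 9, 9, 9, 9, 9, 8, 1] (by simp [Nat.ofDigits_cons]) (by simp [Nat.ofDigits_cons]) (by decide)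
    (by decide) (by simp [cs, Nat.ofDigits_cons]) (by decide) (by decide)

theorem e12 : rats 189999999 = 118899999 :=
  conc 189999999 118899999 [9, 9, 9, 9, 9, 9, 9, 8, 1] [0, 8, 9, 9, 9, 9, 9, 8, 1, 1] [9, 9, 9, 9, 9, 8, 8, 1, 1] (by simp [Nat.ofDigits_cons]) (by simp [Nat.ofDigits_cons]) (by decide)
    (by decide) (by simp [cs, Nat.ofDigits_cons]) (by decide) (by decide)

theorem e13 : rats 118899999 = 111188889 :=
  conc 118899999 111188889 [9, 9, 9, 9, 9, 8, 8, 1, 1] [0, 1, 8, 8, 9, 8, 8, 1, 1, 1] [9, 8, 8, 8, 8, 1, 1, 1, 1] (by simp [Nat.ofDigits_cons]) (by simp [Nat.ofDigits_cons]) (by decide)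
    (by decide) (by simp [cs, Nat.ofDigits_cons]) (by decide) (by decide)

theorem e14 : rats 111188889 = 117 :=
  conc 111188889 117 [9, 8, 8, 8, 8, 1, 1, 1, 1] [0, 0, 0, 0, 7, 0, 0, 0, 1, 1] [7, 1, 1] (by simp [Nat.ofDigits_cons]) (by simp [Nat.ofDigits_cons]) (by decide)
    (by decide) (by simp [cs, Nat.ofDigits_cons]) (by decide) (by decide)

theorem e15 : rats 117 = 288 :=
  conc 117 288 [7, 1, 1] [8, 2, 8] [8, 8, 2] (by simp [Nat.ofDigits_cons]) (by simp [Nat.ofDigits_cons]) (by decide)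
    (by decide) (by simp [cs, Nat.ofDigits_cons]) (by decide) (by decide)

theorem e16 : rats 288 = 117 :=
  conc 288 117 [8, 8, 2] [0, 7, 1, 1] [7, 1, 1] (by simp [Nat.ofDigits_cons]) (by simp [Nat.ofDigits_cons]) (by decide)
    (by decide) (by simp [cs, Nat.ofDigits_cons]) (by decide) (by decide)

theorem cyc_start : Cyc (Nat.ofDigits 10 (tw 2 1 3 3)) := by
  have e : Nat.ofDigits 10 (tw 2 1 3 3) = 111222 := by
    simp [tw, replicate_succ, Nat.ofDigits_cons]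
  rw [e]
  refine ⟨15, ?_⟩
  simp only [Function.iterate_succ_apply, Function.iterate_zero_apply, e0, e1, e2, e3, e4, e5, e6,
    e7, e8, e9, e10, e11, e12, e13, e14]

end Pool.RATC
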