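import Pool.Agent.H19.RATC.Uni3

/-!
# RATS (MP_a315fd): the tree of the good `t`
-/

set_option autoImplicit false

namespace Pool.RATC

open List Pool.RAT

/-- the number of twos after `m` rounds from `2^3` -/
def Bm (m : ℕ) : ℕ := 3 * 64 ^ m - 10 * gm m

theorem Bm_add (m : ℕ) : Bm m + 10 * gm m = 3 * 64 ^ m := by
  have := gm_eq m
  rw [Bm]; omega

theorem Bm_succ (m : ℕ) : Bm (m + 1) + 10 = 64 * Bm m := by
  have h1 := Bm_add m
  have h2 := Bm_add (m + 1)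
  rw [gm, pow_succ] at h2
  omega

theorem Bm_bd (m : ℕ) : 14 * 64 ^ m ≤ 5 * Bm m ∧ Bm m ≤ 3 * 64 ^ m := by
  have h1 := Bm_add m
  have h2 := gm_eq m
  constructor <;> omega

theorem step_t {t t' m : ℕ} (hm : 2 ≤ m) (h : 31 * (t + 5 + m) + t' = 32 * Bm m + 1)
    (h62 : 62 * t' ≤ t + 6) : rats^[6 * m + 5] (Fw t) = Fw t' := by
  obtain ⟨m', rfl⟩ := Nat.exists_eq_add_of_le' (show 1 ≤ m by omega)
  have hb := (Bm_bd (m' + 1)).1
  have hm2 : 64 * 64 ≤ 64 ^ (m' + 1) := by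
    calc 64 * 64 = 64 ^ 2 := by norm_num
      _ ≤ 64 ^ (m' + 1) := Nat.pow_le_pow_right (by norm_num) (by omega)
  have hmm : m' + 1 < 64 ^ (m' + 1) := Nat.lt_pow_self (by norm_num)
  have ht : 1000 ≤ t := by omega
  rw [show 6 * (m' + 1) + 5 = (6 * m' + 5) + 6 by ring, Function.iterate_add_apply]
  have e6 : rats^[6] (Fw t) = Nat.ofDigits 10 (tw 2 1 182 (t - 176)) := by
    show rats (rats (rats (rats (rats (rats (Fw t)))))) = _
    have h6 := six 3 (t - 178) (by omega) (by norm_num)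
    rw [show 63 * 3 + (t - 178) - 9 = t + 2 by omega, show 64 * 3 - 10 = 182 by norm_num,
      show t - 178 + 2 = t - 176 by omega] at h6
    exact h6
  rw [e6]
  apply famU
  · omega
  · norm_num
  · omega
  · have h1 := Bm_add (m' + 1)
    have h2 := gm_succ m'
    have e1 : 64 ^ m' * 182 + 10 * 64 ^ m' = 3 * 64 ^ (m' + 1) := by rw [pow_succ]; ring
    omega

/-- the classes modulo 31 -/
def Cl (r : ℕ) : Bool := r % 31 == 4 || r % 31 == 14 || r % 31 == 23 || r % 31 == 28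

/-- `Bm m` modulo 961 -/
def bb : ℕ → ℕ
  | 0 => 3
  | n + 1 => (64 * bb n + 951) % 961

theorem bb_eq (m : ℕ) : Bm m % 961 = bb m := by
  induction m with
  | zero => decide
  | succ m ih =>
    have h := Bm_succ m
    rw [bb, ← ih]
    omega

set_option maxRecDepth 100000 in
theorem bb155 : bb 155 = 3 := by decide

theorem bb_per (m : ℕ) : bb (m + 155) = bb m := by
  induction m with
  | zero => exact bb155
  | succ m ih =>
    have e : m + 1 + 155 = (m + 155) + 1 := by ring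
    rw [e]
    show (64 * bb (m + 155) + 951) % 961 = (64 * bb m + 951) % 961
    rw [ih]

theorem bb_mod (m : ℕ) : bb m = bb (m % 155) := by
  have key : ∀ q r, bb (r + 155 * q) = bb r := by
    intro q
    induction q with
    | zero => intro r; rfl
    | succ q ih => intro r; rw [show r + 155 * (q + 1) = (r + 155 * q) + 155 by ring, bb_per, ih]
  conv_lhs => rw [← Nat.mod_add_div m 155]
  exact key _ _

/-- the test: `r = t' mod 961`, `μ = m mod 155` -/
def chk (r μ : ℕ) : Bool :=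
  ((32 * bb μ + 962 - r) % 961) % 31 == 0 &&
    Cl (((32 * bb μ + 962 - r) % 961) / 31 + 305 - μ)

def ta4 : List ℕ := [10, 0, 40, 30, 20, 10, 0, 25, 15, 5, 50, 40, 30, 20, 10, 0, 5, 45, 35, 25, 15, 5, 30, 20, 10, 0, 45, 35, 25, 15, 5]
def tb4 : List ℕ := [60, 50, 75, 65, 55, 45, 35, 80, 70, 60, 65, 55, 45, 35, 25, 15, 55, 80, 70, 60, 50, 40, 85, 75, 65, 55, 60, 50, 40, 30, 20]

def ta14 : List ℕ := [12, 52, 22, 17, 77, 2, 42, 12, 7, 67, 37, 32, 2, 17, 57, 27, 22, 2, 7, 47, 17, 12, 72, 42, 37, 7, 2, 62, 32, 27, 7]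
def tb14 : List ℕ := [57, 72, 32, 37, 97, 47, 62, 22, 27, 87, 47, 52, 12, 62, 77, 37, 42, 82, 52, 67, 27, 32, 92, 52, 57, 17, 22, 82, 42, 47, 87]

def ta23 : List ℕ := [54, 24, 4, 14, 89, 59, 29, 9, 19, 94, 64, 34, 4, 24, 99, 69, 39, 9, 29, 4, 74, 44, 14, 34, 4, 79, 49, 19, 39, 9, 84]
def tb23 : List ℕ := [64, 34, 44, 19, 99, 69, 39, 49, 24, 104, 74, 44, 14, 29, 109, 79, 49, 19, 34, 104, 84, 54, 24, 39, 9, 89, 59, 29, 44, 14, 94]

def ta28 : List ℕ := [36, 26, 6, 1, 41, 31, 11, 6, 46, 36, 16, 11, 1, 41, 21, 16, 6, 46, 26, 21, 11, 51, 1, 26, 16, 56, 6, 31, 21, 1, 11]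
def tb28 : List ℕ := [51, 76, 66, 16, 56, 81, 71, 21, 61, 86, 76, 26, 51, 91, 81, 31, 56, 96, 86, 36, 61, 101, 31, 41, 66, 106, 36, 46, 71, 61, 41]

set_option maxRecDepth 100000 in
theorem tab4 : ∀ k < 31, ta4.getD k 0 < 155 ∧ tb4.getD k 0 < 155 ∧ ta4.getD k 0 ≠ tb4.getD k 0 ∧
    chk (31 * k + 4) (ta4.getD k 0) = true ∧ chk (31 * k + 4) (tb4.getD k 0) = true := by
  decide

set_option maxRecDepth 100000 in
theorem tab14 : ∀ k < 31, ta14.getD k 0 < 155 ∧ tb14.getD k 0 < 155 ∧ ta14.getD k 0 ≠ tb14.getD k 0 ∧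
    chk (31 * k + 14) (ta14.getD k 0) = true ∧ chk (31 * k + 14) (tb14.getD k 0) = true := by
  decide

set_option maxRecDepth 100000 in
theorem tab23 : ∀ k < 31, ta23.getD k 0 < 155 ∧ tb23.getD k 0 < 155 ∧ ta23.getD k 0 ≠ tb23.getD k 0 ∧
    chk (31 * k + 23) (ta23.getD k 0) = true ∧ chk (31 * k + 23) (tb23.getD k 0) = true := by
  decide

set_option maxRecDepth 100000 in
theorem tab28 : ∀ k < 31, ta28.getD k 0 < 155 ∧ tb28.getD k 0 < 155 ∧ ta28.getD k 0 ≠ tb28.getD k 0 ∧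
    chk (31 * k + 28) (ta28.getD k 0) = true ∧ chk (31 * k + 28) (tb28.getD k 0) = true := by
  decide

theorem two {r : ℕ} (hr : r < 961) (hc : Cl r = true) :
    ∃ a b, a < 155 ∧ b < 155 ∧ a ≠ b ∧ chk r a = true ∧ chk r b = true := by
  simp only [Cl, Bool.or_eq_true, beq_iff_eq] at hc
  have hk : r / 31 < 31 := by omega
  rcases hc with ((h | h) | h) | h
  · have := tab4 (r / 31) hk
    rw [show 31 * (r / 31) + 4 = r by omega] at this
    exact ⟨_, _, this⟩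
  · have := tab14 (r / 31) hk
    rw [show 31 * (r / 31) + 14 = r by omega] at this
    exact ⟨_, _, this⟩
  · have := tab23 (r / 31) hk
    rw [show 31 * (r / 31) + 23 = r by omega] at this
    exact ⟨_, _, this⟩
  · have := tab28 (r / 31) hk
    rw [show 31 * (r / 31) + 28 = r by omega] at this
    exact ⟨_, _, this⟩

end Pool.RATC
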