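import Pool.Agent.H19.RATC.Tree

/-!
# RATS (MP_a315fd): many good `t`
-/

set_option autoImplicit false

namespace Pool.RATC

open List Pool.RAT

/-- `t` is a child of `t'` in round `m` -/
def Ch (t' m t : ℕ) : Prop :=
  2 ≤ m ∧ 31 * (t + 5 + m) + t' = 32 * Bm m + 1 ∧ 62 * t' ≤ t + 6 ∧ 64 ^ m ≤ t ∧
    t < 64 ^ (m + 1) ∧ Cl t = true

theorem Ch_step {t' m t : ℕ} (h : Ch t' m t) : rats^[6 * m + 5] (Fw t) = Fw t' :=
  step_t h.1 h.2.1 h.2.2.1

theorem Ch_inj {a b m k t : ℕ} (h : Ch a m t) (h' : Ch b k t) : m = k ∧ a = b := by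
  obtain ⟨h1, h2, h3, h4, h5, -⟩ := h
  obtain ⟨g1, g2, g3, g4, g5, -⟩ := h'
  have e : m = k := by
    rcases Nat.lt_trichotomy m k with hlt | heq | hgt
    · have := Nat.pow_le_pow_right (n := 64) (by norm_num) (show m + 1 ≤ k by omega)
      omega
    · exact heq
    · have := Nat.pow_le_pow_right (n := 64) (by norm_num) (show k + 1 ≤ m by omega)
      omega
  subst e
  exact ⟨rfl, by omega⟩

theorem child_one {t' M0 μ : ℕ} (hM : 3 ≤ M0) (hb : 64 * (t' + 1) ≤ 64 ^ M0) (hμ : μ < 155)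
    (hc : chk (t' % 961) μ = true) : ∃ m t, M0 ≤ m ∧ m < M0 + 155 ∧ m % 155 = μ ∧ Ch t' m t := by
  obtain ⟨m, hm⟩ : ∃ m, m = M0 + ((μ + (155 - M0 % 155)) % 155) := ⟨_, rfl⟩
  have hm1 : M0 ≤ m := by omega
  have hm2 : m < M0 + 155 := by omega
  have hm3 : m % 155 = μ := by omega
  obtain ⟨B, hB⟩ : ∃ B, B = Bm m := ⟨_, rfl⟩
  have hb1 : B % 961 = bb μ := by rw [hB, bb_eq, bb_mod, hm3]
  have hb2 := Bm_bd m
  rw [← hB] at hb2
  have hp : 64 ^ M0 ≤ 64 ^ m := Nat.pow_le_pow_right (by norm_num) hm1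
  have hp3 : 64 ^ 3 ≤ 64 ^ m := Nat.pow_le_pow_right (by norm_num) (by omega)
  have hmm : 2 * m < 64 ^ m := by
    have h1 : m < 8 ^ m := Nat.lt_pow_self (by norm_num)
    have h2 : 64 ^ m = 8 ^ m * 8 ^ m := by rw [← mul_pow]; norm_num
    have h3 : 8 ≤ 8 ^ m := by
      calc 8 = 8 ^ 1 := by norm_num
        _ ≤ 8 ^ m := Nat.pow_le_pow_right (by norm_num) (by omega)
    have h4 : 8 * 8 ^ m ≤ 8 ^ m * 8 ^ m := Nat.mul_le_mul_right _ h3
    omega
  obtain ⟨E, hE⟩ : ∃ E, E = 64 ^ m := ⟨_, rfl⟩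
  rw [← hE] at hb2 hp hp3 hmm
  rw [chk, Bool.and_eq_true, beq_iff_eq, ← hb1] at hc
  obtain ⟨hc1, hc2⟩ := hc
  obtain ⟨w, hw⟩ : ∃ w, w = (32 * B + 1 - t') / 31 := ⟨_, rfl⟩
  have hr : t' % 961 < 961 := Nat.mod_lt _ (by norm_num)
  obtain ⟨v, hv⟩ : ∃ v, v = (32 * (B % 961) + 962 - t' % 961) % 961 := ⟨_, rfl⟩
  rw [← hv] at hc1 hc2
  have ht'B : t' ≤ B := by omega
  have hZ : (32 * B + 1 - t') % 961 = v := by omega
  have hw1 : 31 * w = 32 * B + 1 - t' := by omega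
  have hw2 : w % 31 = v / 31 := by omega
  refine ⟨m, w - 5 - m, hm1, hm2, hm3, by omega, ?_, ?_, ?_, ?_, ?_⟩
  · rw [← hB]; omega
  · omega
  · rw [← hE]; omega
  · rw [pow_succ, ← hE]; omega
  · have e : (w - 5 - m) % 31 = (v / 31 + 305 - μ) % 31 := by omega
    rw [Cl] at hc2 ⊢
    rw [e]
    exact hc2

theorem child_two {t' M0 : ℕ} (hM : 3 ≤ M0) (hb : 64 * (t' + 1) ≤ 64 ^ M0) (hc : Cl t' = true) :
    ∃ m k s t, m ≠ k ∧ m < M0 + 155 ∧ k < M0 + 155 ∧ Ch t' m s ∧ Ch t' k t := by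
  have hc' : Cl (t' % 961) = true := by
    have : t' % 961 % 31 = t' % 31 := by omega
    rw [Cl] at hc ⊢
    rw [this]
    exact hc
  obtain ⟨a, b, ha, hb', hab, h1, h2⟩ := two (Nat.mod_lt _ (by norm_num)) hc'
  obtain ⟨m, s, -, g1, g2, g3⟩ := child_one hM hb ha h1
  obtain ⟨k, t, -, g4, g5, g6⟩ := child_one hM hb hb' h2
  exact ⟨m, k, s, t, fun h => hab (by rw [← g2, ← g5, h]), g1, g4, g3, g6⟩

/-- many good `t` -/
theorem grow {R : ℕ → Prop} (hR : ∀ t t' j : ℕ, rats^[j] (Fw t) = Fw t' → R t' → R t) {t0 : ℕ}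
    (h0 : R t0) (hc0 : Cl t0 = true) (ht0 : t0 < 64 ^ 2) (n : ℕ) :
    ∃ S : Finset ℕ, 2 ^ n ≤ S.card ∧ ∀ t ∈ S, R t ∧ Cl t = true ∧ t < 64 ^ (2 + 156 * n) := by
  classical
  induction n with
  | zero =>
    refine ⟨{t0}, by simp, ?_⟩
    intro t ht
    rw [Finset.mem_singleton] at ht
    subst ht
    exact ⟨h0, hc0, ht0⟩
  | succ n ih =>
    obtain ⟨S, hS, hS2⟩ := ih
    have key : ∀ t' ∈ S, ∃ m k s t, m ≠ k ∧ m < (2 + 156 * n + 1) + 155 ∧
        k < (2 + 156 * n + 1) + 155 ∧ Ch t' m s ∧ Ch t' k t := by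
      intro t' ht'
      obtain ⟨-, h2, h3⟩ := hS2 t' ht'
      apply child_two (by omega) _ h2
      rw [pow_succ]
      omega
    choose! fm fk fs ft hne hm hk hs ht using key
    have hb : ∀ m t' s, m < (2 + 156 * n + 1) + 155 → Ch t' m s →
        s < 64 ^ (2 + 156 * (n + 1)) := by
      intro m t' s h1 h2
      exact lt_of_lt_of_le h2.2.2.2.2.1 (Nat.pow_le_pow_right (by norm_num) (by omega))
    refine ⟨S.image fs ∪ S.image ft, ?_, ?_⟩
    · rw [Finset.card_union_of_disjoint, Finset.card_image_of_injOn, Finset.card_image_of_injOn,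
        pow_succ]
      · omega
      · intro a ha b hb' h
        have h1 := ht a ha
        have h2 := ht b hb'
        rw [h] at h1
        exact (Ch_inj h1 h2).2
      · intro a ha b hb' h
        have h1 := hs a ha
        have h2 := hs b hb'
        rw [h] at h1
        exact (Ch_inj h1 h2).2
      · rw [Finset.disjoint_left]
        intro x hx hx'
        obtain ⟨a, ha, hax⟩ := Finset.mem_image.mp hx
        obtain ⟨b, hb', hbx⟩ := Finset.mem_image.mp hx'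
        have h1 := hs a ha
        have h2 := ht b hb'
        rw [hax] at h1
        rw [hbx] at h2
        obtain ⟨h3, h4⟩ := Ch_inj h1 h2
        subst h4
        exact hne a ha h3
    · intro x hx
      rw [Finset.mem_union, Finset.mem_image, Finset.mem_image] at hx
      rcases hx with ⟨a, ha, rfl⟩ | ⟨a, ha, rfl⟩
      · exact ⟨hR _ _ _ (Ch_step (hs a ha)) (hS2 a ha).1, (hs a ha).2.2.2.2.2,
          hb _ _ _ (hm a ha) (hs a ha)⟩
      · exact ⟨hR _ _ _ (Ch_step (ht a ha)) (hS2 a ha).1, (ht a ha).2.2.2.2.2,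
          hb _ _ _ (hk a ha) (ht a ha)⟩

end Pool.RATC
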