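import Pool.Agent.H42.RAT2.Dens
import Pool.Agent.H19.RATC.Cyc

/-!
# RATS (MP_a315fd): from `1^x 2^y` to `1^(t+2) 2^3`, all `t` at once
-/

set_option autoImplicit false

namespace Pool.RATC

open List Pool.RAT

/-- five steps: `1^x 2^(31x+t-1) ↦ 1^(t+2) 222` -/
theorem five_t (z t : ℕ) :
    rats (rats (rats (rats (rats (Nat.ofDigits 10 (tw 2 1 (31 * z + 30 + t) (z + 1))))))) =
      Nat.ofDigits 10 (tw 2 1 3 (t + 2)) := by
  rw [show 31 * z + 30 + t = (z + 1) + (30 * z + 29 + t) by ring,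
    tw_N' (by norm_num) (by norm_num) (by norm_num),
    show 30 * z + 29 + t = 2 * (z + 1) + (28 * z + 27 + t) by ring,
    tw_N' (by norm_num) (by norm_num) (by norm_num)]
  norm_num only
  rw [show 28 * z + 27 + t = (4 * z + 3) + 1 + (24 * z + 23 + t) by ring,
    show 2 * (2 * (z + 1)) = (4 * z + 3) + 1 by ring, stepC3,
    show 24 * z + 23 + t = (2 * (4 * z + 3) + 1) + 2 + (16 * z + 14 + t) by ring, stepC4,
    show 16 * z + 14 + t = 2 * (2 * (4 * z + 3) + 1) + t by ring, stepC5]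

/-- the target word -/
def Fw (t : ℕ) : ℕ := Nat.ofDigits 10 (tw 2 1 3 (t + 2))

theorem famU (t m : ℕ) : ∀ x y, 1 ≤ x → 100 ≤ y → 62 * t ≤ x + y →
    32 * (64 ^ m * y) + 1 = 31 * (x + y + m) + 320 * gm m + t →
    rats^[6 * m + 5] (Nat.ofDigits 10 (tw 2 1 y x)) = Fw t := by
  induction m with
  | zero =>
    intro x y hx hy ht h
    simp only [gm, pow_zero] at h
    obtain ⟨z, rfl⟩ := Nat.exists_eq_add_of_le' hx
    have : y = 31 * z + 30 + t := by omega
    subst this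
    show rats (rats (rats (rats (rats _)))) = _
    exact five_t z t
  | succ m ih =>
    intro x y hx hy ht h
    have h1 := gm_eq (m + 1)
    have h2 := gm_succ m
    have h3 : 64 ≤ 64 ^ (m + 1) := by
      calc 64 = 64 ^ 1 := by norm_num
        _ ≤ 64 ^ (m + 1) := Nat.pow_le_pow_right (by norm_num) (by omega)
    have h4 : m + 1 < 64 ^ (m + 1) := Nat.lt_pow_self (by norm_num)
    obtain ⟨k, hk⟩ : ∃ k, x + 9 = 63 * y + k := by
      refine ⟨x + 9 - 63 * y, ?_⟩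
      obtain ⟨w, hw⟩ : ∃ w, y = w + 100 := ⟨y - 100, by omega⟩
      have h5 : 64 * w ≤ 64 ^ (m + 1) * w := Nat.mul_le_mul_right w h3
      have h6 : 64 ^ (m + 1) * y = 64 ^ (m + 1) * w + 100 * 64 ^ (m + 1) := by rw [hw]; ring
      have : 63 * y ≤ x + 9 := by omega
      omega
    have hx' : x = 63 * y + k - 9 := by omega
    rw [hx', show 6 * (m + 1) + 5 = (6 * m + 5) + 6 by ring, Function.iterate_add_apply]
    show rats^[6 * m + 5] (rats (rats (rats (rats (rats (rats _)))))) = _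
    rw [six y k (by omega) (by omega)]
    apply ih
    · omega
    · omega
    · omega
    · have e1 : 32 * (64 ^ m * (64 * y - 10)) + 320 * 64 ^ m = 32 * (64 ^ (m + 1) * y) := by
        obtain ⟨w, hw⟩ : ∃ w, 64 * y = w + 10 := ⟨64 * y - 10, by omega⟩
        rw [hw, Nat.add_sub_cancel, pow_succ]
        calc 32 * (64 ^ m * w) + 320 * 64 ^ m = 32 * (64 ^ m * (w + 10)) := by ring
          _ = 32 * (64 ^ m * (64 * y)) := by rw [hw]
          _ = 32 * (64 ^ m * 64 * y) := by ring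
      omega

theorem hit_TG {q0 q1 q2 q3 p1 p2 p3 p4 r m t : ℕ} (hq : 1 ≤ q0)
    (hY : 100 ≤ 2 * (p1 + p2 + p3 + p4))
    (ht : 62 * t ≤ (2 * (q0 + q1 + q2 + q3) + r) + 2 * (p1 + p2 + p3 + p4))
    (h : 32 * (64 ^ m * (2 * (p1 + p2 + p3 + p4))) + 1 =
      31 * ((2 * (q0 + q1 + q2 + q3) + r) + 2 * (p1 + p2 + p3 + p4) + m) + 320 * gm m + t) :
    rats^[6 * m + 6] (Nat.ofDigits 10 (TG q0 q1 q2 q3 p1 p2 p3 p4 r)) = Fw t := by
  obtain ⟨q, rfl⟩ : ∃ q, q0 = q + 1 := ⟨q0 - 1, by omega⟩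
  rw [show 6 * m + 6 = (6 * m + 5) + 1 by ring, Function.iterate_succ_apply, stepG]
  exact famU t m _ _ (by omega) hY ht h

/-- the numbers up to `N` whose `k`-th term is `1^(t+2) 222` -/
def US (k t N : ℕ) : Set ℕ := {n | 1 ≤ n ∧ n ≤ N ∧ rats^[k] n = Fw t}

theorem US_fin (k t N : ℕ) : (US k t N).Finite := (Set.finite_Iic N).subset (fun _ h => h.2.1)

theorem npr_hit {J W η j m B t0 : ℕ} (hW : 2 ≤ W) (hη : 100 ≤ 2 * η) (hB1 : 6 * B ≤ η)
    (hB2 : 16 * B ≤ j) (h62 : 62 * t0 ≤ (2 * (4 * W) + j) + 2 * η)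
    (h : 32 * (64 ^ m * (2 * η)) + 1 = 31 * ((2 * (4 * W) + j) + 2 * η + m) + 320 * gm m + t0)
    {t : Fin 7 → Fin B} {p : (Fin J → A3) × (Fin J → A3)} (hp : p ∈ PP J (UU W η j t)) :
    rats^[6 * m + 7] (npr p) = Fw t0 := by
  have b0 := (t 0).isLt
  have b1 := (t 1).isLt
  have b2 := (t 2).isLt
  have b3 := (t 3).isLt
  have b4 := (t 4).isLt
  have b5 := (t 5).isLt
  have b6 := (t 6).isLt
  rw [PP, Finset.mem_filter] at hp
  rw [show 6 * m + 7 = (6 * m + 6) + 1 by ring, Function.iterate_succ_apply]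
  rw [npr, rats_nl (by simp) [fe J p.1, fe J p.2] (T := TT W η j t) (st_TG _ _ _ _ _ _ _ _ _)]
  · have e1 : 2 * (t 4 : ℕ) + 2 * (t 5 : ℕ) + 2 * (t 6 : ℕ) +
        (η - 2 * ((t 4 : ℕ) + t 5 + t 6)) = η := by omega
    apply hit_TG (m := m)
    · omega
    · rw [e1]; exact hη
    · rw [e1]; omega
    · rw [e1, h]
      omega
  · intro d hd1 hd9
    have h1 := hp.2 ⟨d, by omega⟩ (fun hh => by
      have := congrArg Fin.val hh
      simp at this
      omega)
    simp only [map_cons, map_nil, sum_cons, sum_nil, Nat.add_zero]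
    simp only [Vd, UU] at h1
    rw [h1]
    by_cases h9 : d = 9
    · subst h9
      have h2 : W ≤ (TT W η j t).count 9 := by rw [TT, count_TG]; norm_num; omega
      norm_num
      omega
    · rw [if_neg h9, count_cons_of_ne (by omega), count_nil]
      omega

theorem pp_sumU {J W η j m B t0 N : ℕ} (hW : 2 ≤ W) (hη : 100 ≤ 2 * η) (hB1 : 6 * B ≤ η)
    (hB2 : 16 * B ≤ j) (h62 : 62 * t0 ≤ (2 * (4 * W) + j) + 2 * η)
    (h : 32 * (64 ^ m * (2 * η)) + 1 = 31 * ((2 * (4 * W) + j) + 2 * η + m) + 320 * gm m + t0)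
    (hN : 10 ^ (12 * J + 8) ≤ N) :
    ∑ t : Fin 7 → Fin B, (PP J (UU W η j t)).card ≤ (US (6 * m + 7) t0 N).ncard := by
  classical
  rw [← Finset.card_biUnion]
  · have hsub : ((((Finset.univ : Finset (Fin 7 → Fin B)).biUnion
        (fun t => PP J (UU W η j t))).image npr : Finset ℕ) : Set ℕ) ⊆ US (6 * m + 7) t0 N := by
      intro n hn
      rw [Finset.coe_image] at hn
      obtain ⟨p, hp, rfl⟩ := hn
      obtain ⟨t, -, ht⟩ := Finset.mem_biUnion.mp (Finset.mem_coe.mp hp)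
      obtain ⟨h1, h2⟩ := npr_bd p
      exact ⟨h1, by omega, npr_hit hW hη hB1 hB2 h62 h ht⟩
    have h1 := Set.ncard_le_ncard hsub (US_fin _ _ N)
    rwa [Set.ncard_coe_finset, Finset.card_image_of_injective _ npr_inj] at h1
  · intro t _ t' _ hne
    rw [Function.onFun, Finset.disjoint_left]
    intro p hp hp'
    apply hne
    rw [PP, Finset.mem_filter] at hp hp'
    exact UU_inj (fun d hd => (hp.2 d hd).symm.trans (hp'.2 d hd)) hW

theorem mod31m (m : ℕ) : 64 ^ m % 31 = 1 ∨ 64 ^ m % 31 = 2 ∨ 64 ^ m % 31 = 4 ∨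
    64 ^ m % 31 = 8 ∨ 64 ^ m % 31 = 16 := by
  induction m with
  | zero => left; norm_num
  | succ a ih => rw [pow_succ]; omega

/-- a solution modulo 31 -/
theorem inv31 {M : ℕ} (hM : M % 31 = 1 ∨ M % 31 = 2 ∨ M % 31 = 4 ∨ M % 31 = 8 ∨ M % 31 = 16)
    (hM1 : 1 ≤ M) (r : ℕ) : ∃ c, c ≤ 30 ∧ ((64 * M - 31) * c) % 31 = r % 31 := by
  have key : ∀ v w : ℕ, (64 * M - 31) % 31 = v → (∀ z, (v * ((z * w) % 31)) % 31 = z % 31) →
      ∃ c, c ≤ 30 ∧ ((64 * M - 31) * c) % 31 = r % 31 := by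
    intro v w hv hw
    refine ⟨(r * w) % 31, by omega, ?_⟩
    rw [Nat.mul_mod, hv, Nat.mod_mod]
    exact hw r
  rcases hM with h | h | h | h | h
  · exact key 2 16 (by omega) (by intro z; omega)
  · exact key 4 8 (by omega) (by intro z; omega)
  · exact key 8 4 (by omega) (by intro z; omega)
  · exact key 16 2 (by omega) (by intro z; omega)
  · exact key 1 1 (by omega) (by intro z; omega)

end Pool.RATC
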