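import Pool.Agent.H19.RATC.Uni

/-!
# RATS (MP_a315fd): at least `c N / log N` numbers up to `N` with `k`-th term `1^(t+2) 222`
-/

set_option autoImplicit false

namespace Pool.RATC

open List Pool.RAT

/-- the number of rounds of six steps -/
def mJ (J t : ℕ) : ℕ := 2 * Nat.log 4096 (Nat.sqrt J / 64 ^ ((t + 1) % 2)) + (t + 1) % 2

set_option maxRecDepth 20000 in
/-- the parameters -/
theorem paramsU {J t0 : ℕ} (hJ : 10 ^ 12 ≤ J) (ht0 : 1000 * t0 ≤ J) {s : ℝ} (hs : 0 ≤ s)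
    (hJs : (J : ℝ) = s ^ 2) :
    ∃ W η j B : ℕ, 2 ≤ W ∧ 100 ≤ 2 * η ∧ 6 * B ≤ η ∧ 16 * B ≤ j ∧ s ≤ 8 * B ∧
      62 * t0 ≤ (2 * (4 * W) + j) + 2 * η ∧
      32 * (64 ^ (mJ J t0) * (2 * η)) + 1 =
        31 * ((2 * (4 * W) + j) + 2 * η + mJ J t0) + 320 * gm (mJ J t0) + t0 ∧
      (∀ (t : Fin 7 → Fin B) (d : Fin 10), d ≠ 0 → UU W η j t d % 2 = 0) ∧
      (∀ (t : Fin 7 → Fin B) (d : Fin 10), d ≠ 0 →
        |10 * (UU W η j t d : ℝ) - 12 * J| ≤ 300000 * s) := by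
  obtain ⟨S, hS⟩ : ∃ S, S = Nat.sqrt J := ⟨_, rfl⟩
  have hS1 : S * S ≤ J := by rw [hS]; exact Nat.sqrt_le J
  have hS2 : J < (S + 1) * (S + 1) := by rw [hS]; exact Nat.lt_succ_sqrt J
  have hS3 : 10 ^ 6 ≤ S := by
    rw [hS, Nat.le_sqrt]
    exact le_trans (by norm_num) hJ
  obtain ⟨e, he⟩ : ∃ e, e = (t0 + 1) % 2 := ⟨_, rfl⟩
  have he1 : e ≤ 1 := by omega
  obtain ⟨E, hE⟩ : ∃ E, E = 64 ^ e := ⟨_, rfl⟩
  have hE1 : 1 ≤ E ∧ E ≤ 64 := by
    rw [hE]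
    rcases Nat.le_one_iff_eq_zero_or_eq_one.mp he1 with h | h <;> rw [h] <;> norm_num
  obtain ⟨a, ha⟩ : ∃ a, a = Nat.log 4096 (S / E) := ⟨_, rfl⟩
  obtain ⟨m, hm⟩ : ∃ m, m = mJ J t0 := ⟨_, rfl⟩
  have hm2 : m = 2 * a + e := by rw [hm, mJ, ha, hE, he, hS]
  rw [← hm]
  obtain ⟨M, hM⟩ : ∃ M, M = 64 ^ m := ⟨_, rfl⟩
  obtain ⟨g, hg⟩ : ∃ g, g = gm m := ⟨_, rfl⟩
  have hM4 : M = E * 4096 ^ a := by
    rw [hM, hm2, hE, pow_add, pow_mul, mul_comm]
    norm_num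
  have hSE : E * (S / E) ≤ S := Nat.mul_div_le S E
  have hSE' : S < E * (S / E) + E := Nat.lt_mul_div_succ S (by omega)
  have hSE1 : 1000000 ≤ 64 * (S / E) + 64 := by
    have : E * (S / E) ≤ 64 * (S / E) := Nat.mul_le_mul_right _ hE1.2
    omega
  have hMS : M ≤ S := by
    have h1 : 4096 ^ a ≤ S / E := by rw [ha]; exact Nat.pow_log_le_self 4096 (by omega)
    have h2 : E * 4096 ^ a ≤ E * (S / E) := Nat.mul_le_mul_left _ h1
    omega
  have hSM : S < 4096 * M := by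
    have h1 : S / E + 1 ≤ 4096 ^ (a + 1) := by
      rw [ha]; exact Nat.lt_pow_succ_log_self (by norm_num) _
    have h2 : E * (S / E + 1) ≤ E * 4096 ^ (a + 1) := Nat.mul_le_mul_left _ h1
    have h3 : E * 4096 ^ (a + 1) = 4096 * M := by rw [hM4]; ring
    rw [mul_add, mul_one] at h2
    omega
  have hmM : m < M := by rw [hM]; exact Nat.lt_pow_self (by norm_num)
  have hgM : 63 * g + 1 = M := by rw [hg, hM]; exact gm_eq m
  have hM64 : 244 ≤ M := by omega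
  obtain ⟨u, hu⟩ : ∃ u, 2 * u + 1 = 31 * m + t0 := ⟨(31 * m + t0) / 2, by omega⟩
  obtain ⟨c, hc30, hc⟩ := inv31 (M := M) (by rw [hM]; exact mod31m m) (by omega) (160 * g + u)
  obtain ⟨N, hN⟩ : ∃ N, N = 3 * J / 5 := ⟨_, rfl⟩
  obtain ⟨D, hD⟩ : ∃ D, D = 64 * M - 31 := ⟨_, rfl⟩
  rw [← hD] at hc
  obtain ⟨R, hR⟩ : ∃ R, R = 279 * N + (160 * g + u) := ⟨_, rfl⟩
  obtain ⟨q, hq⟩ : ∃ q, q = R / (31 * D) := ⟨_, rfl⟩
  have hD1 : 1000 ≤ D := by omega
  have hq1 : 31 * D * q ≤ R := by rw [hq]; exact Nat.mul_div_le R (31 * D)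
  have hq2 : R < 31 * D * q + 31 * D := by
    rw [hq]
    exact Nat.lt_mul_div_succ R (by omega)
  obtain ⟨P, hP⟩ : ∃ P, P = D * q := ⟨_, rfl⟩
  have hP1 : 31 * P ≤ R := by rw [hP, ← mul_assoc]; exact hq1
  have hP2 : R < 31 * P + 31 * D := by rw [hP, ← mul_assoc]; exact hq2
  obtain ⟨Q, hQ⟩ : ∃ Q, Q = D * c := ⟨_, rfl⟩
  rw [← hQ] at hc
  have hQ1 : Q ≤ 30 * D := by
    rw [hQ, mul_comm 30 D]
    exact Nat.mul_le_mul_left _ hc30
  obtain ⟨k5, hk5⟩ : ∃ k5, k5 = (31 * P + 31 * D + Q - R) / 31 := ⟨_, rfl⟩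
  have hk5' : 31 * k5 + R = 31 * P + 31 * D + Q := by omega
  have hk5D : k5 ≤ 2 * D := by omega
  have hS6 : 1000000 * S ≤ J := le_trans (Nat.mul_le_mul_right S hS3) hS1
  have hqN : 100 * q ≤ N := by
    have h3 : 1000 * q ≤ D * q := Nat.mul_le_mul_right _ hD1
    rw [← hP] at h3
    omega
  have hN5 : 5 * N ≤ 3 * J := by omega
  have hN5' : 3 * J < 5 * N + 5 := by omega
  -- real bounds
  have hSs : (S : ℝ) ≤ s := by
    have h1 : ((S : ℝ)) ^ 2 ≤ s ^ 2 := by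
      rw [← hJs, pow_two]
      exact_mod_cast hS1
    exact abs_le_of_sq_le_sq' h1 hs |>.2
  have hsS : s ≤ S + 1 := by
    have h1 : s ^ 2 ≤ ((S : ℝ) + 1) ^ 2 := by
      rw [← hJs, pow_two]
      exact_mod_cast hS2.le
    exact abs_le_of_sq_le_sq' h1 (by positivity) |>.2
  have hs6 : (1000000 : ℝ) ≤ s := le_trans (by exact_mod_cast hS3) hSs
  have hss : 1000000 * s ≤ s ^ 2 := by
    rw [pow_two]
    exact mul_le_mul_of_nonneg_right hs6 hs
  have hMr : (M : ℝ) ≤ s := le_trans (by exact_mod_cast hMS) hSs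
  have hsMr : s ≤ 4096 * M := by
    have : (S : ℝ) + 1 ≤ 4096 * M := by exact_mod_cast hSM
    linarith
  have hDr : (D : ℝ) = 64 * M - 31 := by
    rw [hD, Nat.cast_sub (by omega)]
    push_cast
    ring
  have hRr : (R : ℝ) ≤ 168 * s ^ 2 := by
    have h1 : 2000 * R ≤ 2000 * (279 * N + 31 * D) + J := by omega
    have h2 : 2000 * (R : ℝ) ≤ 2000 * (279 * N + 31 * D) + J := by exact_mod_cast h1
    have h3 : (5 : ℝ) * N ≤ 3 * J := by exact_mod_cast hN5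
    have h4 : 1984 * s ≤ s ^ 2 / 10 := by linarith
    rw [hJs] at h2 h3
    rw [hDr] at h2
    linarith
  have hqr : (q : ℝ) ≤ 353 * s := by
    have h1 : 31 * (D : ℝ) * q ≤ 168 * s ^ 2 := le_trans (by exact_mod_cast hq1) hRr
    have h2 : 63 * s ≤ 4096 * (D : ℝ) := by
      rw [hDr]
      have : (244 : ℝ) ≤ M := by exact_mod_cast hM64
      linarith
    by_contra hcon
    push Not at hcon
    have h3 : 353 * s * (63 * s) < (q : ℝ) * (4096 * D) := by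
      have hs3 : 0 < 63 * s := by linarith
      have hq0 : (0 : ℝ) < q := by linarith
      calc 353 * s * (63 * s) < (q : ℝ) * (63 * s) := mul_lt_mul_of_pos_right hcon hs3
        _ ≤ (q : ℝ) * (4096 * D) := mul_le_mul_of_nonneg_left h2 hq0.le
    have h5 : 31 * (D : ℝ) * q = 31 * (D * q) := by ring
    have h6 : (q : ℝ) * (4096 * D) = 4096 * (D * q) := by ring
    have h7 : 353 * s * (63 * s) = 22239 * s ^ 2 := by ring
    rw [h5] at h1
    rw [h6, h7] at h3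
    linarith
  have hk5r : (k5 : ℝ) ≤ 128 * s := by
    have h2 : (k5 : ℝ) ≤ 2 * D := by exact_mod_cast hk5D
    rw [hDr] at h2
    linarith
  obtain ⟨η, hη⟩ : ∃ η, η = 2 * (31 * (q + 1) + c) := ⟨_, rfl⟩
  have hηN : η ≤ 2 * N + 2 * k5 := by omega
  have hηr : (η : ℝ) ≤ 22000 * s := by
    have h1 : η ≤ 62 * q + 122 := by omega
    have h2 : (η : ℝ) ≤ 62 * q + 122 := by exact_mod_cast h1
    linarith
  obtain ⟨B, hB⟩ : ∃ B, B = S / 6 := ⟨_, rfl⟩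
  have hηS : S ≤ η := by
    by_contra hcon
    have h1 : 62 * (q + 1) ≤ S := by omega
    have h2 : D ≤ 64 * S := by omega
    have h3 : D * (62 * (q + 1)) ≤ 64 * S * S := Nat.mul_le_mul h2 h1
    have h4 : D * (62 * (q + 1)) = 62 * (P + D) := by rw [hP]; ring
    have h5 : 64 * S * S = 64 * (S * S) := by ring
    omega
  have hBr : (B : ℝ) ≤ s := by
    have : (B : ℝ) ≤ S := by exact_mod_cast (by omega : B ≤ S)
    linarith
  have hBs : s ≤ 8 * B := by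
    have h1 : S ≤ 6 * B + 5 := by omega
    have h2 : (S : ℝ) ≤ 6 * B + 5 := by exact_mod_cast h1
    linarith
  obtain ⟨j, hj⟩ : ∃ j, j = 2 * N + 2 * k5 - η := ⟨_, rfl⟩
  have hNr : (3 : ℝ) * J ≤ 5 * N + 5 := by exact_mod_cast hN5'.le
  have hjB : 16 * B ≤ j := by
    have h1 : (16 : ℝ) * B + η ≤ 2 * N := by
      rw [hJs] at hNr
      linarith
    have h2 : 16 * B + η ≤ 2 * N := by exact_mod_cast h1
    omega
  refine ⟨2 * N, η, j, B, by omega, by omega, by omega, hjB, hBs, by omega, ?_, ?_, ?_⟩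
  · rw [← hM, ← hg]
    have e2 : D * η = 2 * (31 * P + 31 * D + Q) := by rw [hη, hP, hQ]; ring
    have e3 : 64 * (M * η) = D * η + 31 * η := by
      have : 64 * M = D + 31 := by omega
      calc 64 * (M * η) = 64 * M * η := by ring
        _ = (D + 31) * η := by rw [this]
        _ = _ := by ring
    have e4 : 32 * (M * (2 * η)) = 64 * (M * η) := by ring
    rw [e4, e3, e2, ← hk5', hR]
    omega
  · intro t d hd
    have b0 := (t 0).isLt
    have b1 := (t 1).isLt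
    have b2 := (t 2).isLt
    have b3 := (t 3).isLt
    have b4 := (t 4).isLt
    have b5 := (t 5).isLt
    have b6 := (t 6).isLt
    rw [UU, TT, count_TG]
    have hv1 : 1 ≤ d.val := by
      have : d.val ≠ 0 := fun h0 => hd (Fin.ext h0)
      omega
    have hv9 : d.val ≤ 9 := by have := d.isLt; omega
    generalize d.val = v at hv1 hv9 ⊢
    interval_cases v <;> norm_num <;> omega
  · intro t d hd
    have b0 := (t 0).isLt
    have b1 := (t 1).isLt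
    have b2 := (t 2).isLt
    have b3 := (t 3).isLt
    have b4 := (t 4).isLt
    have b5 := (t 5).isLt
    have b6 := (t 6).isLt
    have hval : 2 * N ≤ UU (2 * N) η j t d + 2 + η + 16 * B ∧
        UU (2 * N) η j t d ≤ 2 * N + 2 * k5 + η + 4 * B := by
      rw [UU, TT, count_TG]
      have hv1 : 1 ≤ d.val := by
        have : d.val ≠ 0 := fun h0 => hd (Fin.ext h0)
        omega
      have hv9 : d.val ≤ 9 := by have := d.isLt; omega
      generalize d.val = v at hv1 hv9 ⊢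
      interval_cases v <;> norm_num <;> omega
    obtain ⟨h1, h2⟩ := hval
    have h1' : 2 * (N : ℝ) ≤ (UU (2 * N) η j t d : ℝ) + 2 + η + 16 * B := by
      exact_mod_cast h1
    have h2' : (UU (2 * N) η j t d : ℝ) ≤ 2 * N + 2 * k5 + η + 4 * B := by
      exact_mod_cast h2
    have h3 : (5 : ℝ) * N ≤ 3 * J := by exact_mod_cast hN5
    rw [abs_le]
    constructor <;> linarith

theorem final_countU : ∃ C : ℝ, 0 < C ∧ ∃ J0 : ℕ, ∀ J, J0 ≤ J → ∀ N, 10 ^ (12 * J + 8) ≤ N →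
    ∀ t0, 1000 * t0 ≤ J →
    (10 : ℝ) ^ (12 * J) ≤ C * (J : ℝ) * ((US (6 * mJ J t0 + 7) t0 N).ncard : ℝ) := by
  refine ⟨8 ^ 7 * (4194304 * cD (300000 + 10020)), by rw [cD]; positivity, 10 ^ 26,
    fun J hJ N hN t0 ht0 => ?_⟩
  obtain ⟨s, hs⟩ : ∃ s, s = Real.sqrt J := ⟨_, rfl⟩
  have hJs : (J : ℝ) = s ^ 2 := by rw [hs]; exact (Real.sq_sqrt (Nat.cast_nonneg J)).symm
  have hs13 : (10 : ℝ) ^ 13 ≤ s := by
    rw [hs]
    apply Real.le_sqrt_of_sq_le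
    have : ((10 ^ 26 : ℕ) : ℝ) ≤ J := by exact_mod_cast hJ
    refine le_trans (le_of_eq ?_) this
    norm_num
  have hs0 : 0 < s := lt_of_lt_of_le (by positivity) hs13
  obtain ⟨W, η, j, B, h1, h2, h3, h3', hBs, h62, h4, h5, h6⟩ :=
    paramsU (le_trans (by norm_num) hJ) ht0 hs0.le hJs
  obtain ⟨C, hC⟩ : ∃ C : ℝ, C = 4194304 * cD (300000 + 10020) := ⟨_, rfl⟩
  have hC0 : 0 < C := by rw [hC, cD]; positivity
  rw [← hC]
  have h7 : ∀ t : Fin 7 → Fin B, ((1000000 : ℝ) ^ J) ^ 2 ≤ C * s ^ 9 *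
      ((PP J (UU W η j t)).card : ℝ) := by
    intro t
    rw [hC]
    exact pairs hJs (c := 300000) (by norm_num) (le_trans (by norm_num) hs13) (h5 t) (h6 t)
  have h8 : (B : ℝ) ^ 7 * ((1000000 : ℝ) ^ J) ^ 2 ≤ C * s ^ 9 * ((US (6 * mJ J t0 + 7) t0 N).ncard : ℝ) := by
    calc (B : ℝ) ^ 7 * ((1000000 : ℝ) ^ J) ^ 2 =
          ∑ t : Fin 7 → Fin B, ((1000000 : ℝ) ^ J) ^ 2 := by
            rw [Finset.sum_const, Finset.card_univ, Fintype.card_fun, Fintype.card_fin,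
              Fintype.card_fin, nsmul_eq_mul]
            push_cast
            ring
      _ ≤ ∑ t : Fin 7 → Fin B, C * s ^ 9 * ((PP J (UU W η j t)).card : ℝ) :=
          Finset.sum_le_sum (fun t _ => h7 t)
      _ = C * s ^ 9 * ((∑ t : Fin 7 → Fin B, (PP J (UU W η j t)).card : ℕ) : ℝ) := by
          rw [← Finset.mul_sum]
          push_cast
          rfl
      _ ≤ C * s ^ 9 * ((US (6 * mJ J t0 + 7) t0 N).ncard : ℝ) := by
          apply mul_le_mul_of_nonneg_left _ (by positivity)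
          exact_mod_cast pp_sumU h1 h2 h3 h3' h62 h4 hN
  have e : (10 : ℝ) ^ (12 * J) = ((1000000 : ℝ) ^ J) ^ 2 := by
    rw [← pow_mul, mul_comm J 2, pow_mul (1000000 : ℝ) 2 J, pow_mul (10 : ℝ) 12 J]
    norm_num
  rw [e]
  have h9 : s ^ 7 ≤ 8 ^ 7 * (B : ℝ) ^ 7 := by
    rw [← mul_pow]
    exact pow_le_pow_left₀ hs0.le hBs 7
  have h10 : s ^ 7 * ((1000000 : ℝ) ^ J) ^ 2 ≤ s ^ 7 * (8 ^ 7 * C * J * ((US (6 * mJ J t0 + 7) t0 N).ncard : ℝ)) := by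
    calc s ^ 7 * ((1000000 : ℝ) ^ J) ^ 2 ≤ 8 ^ 7 * (B : ℝ) ^ 7 * ((1000000 : ℝ) ^ J) ^ 2 :=
          mul_le_mul_of_nonneg_right h9 (by positivity)
      _ = 8 ^ 7 * ((B : ℝ) ^ 7 * ((1000000 : ℝ) ^ J) ^ 2) := by ring
      _ ≤ 8 ^ 7 * (C * s ^ 9 * ((US (6 * mJ J t0 + 7) t0 N).ncard : ℝ)) := mul_le_mul_of_nonneg_left h8 (by positivity)
      _ = s ^ 7 * (8 ^ 7 * C * J * ((US (6 * mJ J t0 + 7) t0 N).ncard : ℝ)) := by rw [hJs]; ring
  exact le_of_mul_le_mul_left h10 (by positivity)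

end Pool.RATC
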